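import Mathlib

/-!
# Counting: few small sets cannot contain large parts of many maps of small energy
-/

set_option autoImplicit false

open Set MeasureTheory
open scoped ENNReal

namespace Pool.Agent.Y322.KS

theorem disjointed_sum {Z E α : Type*} [MeasurableSpace Z] [MeasurableSpace E]
    (lam : Measure Z) (X : Z → E) (hX : Measurable X) (S : Finset α) (T : α → Set E)
    (hT : ∀ a ∈ S, MeasurableSet (T a)) (hdis : (S : Set α).PairwiseDisjoint T) :
    lam (X ⁻¹' ⋃ a ∈ S, T a) = ∑ a ∈ S, lam (X ⁻¹' T a) := by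
  rw [preimage_iUnion₂, measure_biUnion_finset]
  · intro a ha b hb hab
    exact (hdis ha hb hab).preimage X
  · exact fun a ha => hX (hT a ha)

/-- The energy of two maps dominates the sum of products of the masses of disjoint small sets. -/
theorem energy_ge {Z E α : Type*} [MeasurableSpace Z] [MeasurableSpace E]
    (lam : Measure Z) (X Y : Z → E) (hX : Measurable X) (S : Finset α)
    (T : α → Set E) (hT : ∀ a ∈ S, MeasurableSet (T a)) (hdis : (S : Set α).PairwiseDisjoint T)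
    (R : E → E → Prop) (hd : ∀ a ∈ S, ∀ x ∈ T a, ∀ y ∈ T a, R x y) :
    ∑ a ∈ S, lam (X ⁻¹' T a) * lam (Y ⁻¹' T a) ≤ ∫⁻ z, lam {z' | R (X z) (Y z')} ∂lam := by
  have h1 : ∀ a ∈ S, lam (X ⁻¹' T a) * lam (Y ⁻¹' T a) =
      ∫⁻ z, (X ⁻¹' T a).indicator (fun _ => lam (Y ⁻¹' T a)) z ∂lam := by
    intro a ha
    rw [lintegral_indicator (hX (hT a ha)), lintegral_const, Measure.restrict_apply_univ, mul_comm]
  rw [Finset.sum_congr rfl h1, ← lintegral_finsetSum S
    (fun a ha => measurable_const.indicator (hX (hT a ha)))]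
  refine lintegral_mono fun z => ?_
  by_cases hz : ∃ a ∈ S, X z ∈ T a
  · obtain ⟨a, ha, haz⟩ := hz
    rw [Finset.sum_eq_single a]
    · rw [indicator_of_mem (by exact haz)]
      refine measure_mono fun z' hz' => ?_
      exact hd a ha _ haz _ hz'
    · intro b hb hba
      rw [indicator_of_notMem]
      intro hbz
      exact (Set.disjoint_left.1 (hdis hb ha hba)) hbz haz
    · intro h
      exact absurd ha h
  · push Not at hz
    rw [Finset.sum_eq_zero]
    · exact zero_le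
    · intro a ha
      rw [indicator_of_notMem (by exact hz a ha)]

theorem counting_disjoint {Z E ι α : Type*} [MeasurableSpace Z]
    [MeasurableSpace E] (lam : Measure Z) [IsFiniteMeasure lam] (I : Finset ι) (X : ι → Z → E)
    (hX : ∀ i ∈ I, Measurable (X i)) (S : Finset α) (T : α → Set E)
    (hT : ∀ a ∈ S, MeasurableSet (T a)) (hdis : (S : Set α).PairwiseDisjoint T)
    (R : E → E → Prop) (x F : ℝ)
    (hx : 0 ≤ x) (hF : 0 ≤ F) (hd : ∀ a ∈ S, ∀ x ∈ T a, ∀ y ∈ T a, R x y)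
    (h1 : ∀ i ∈ I, ENNReal.ofReal x ≤ lam (X i ⁻¹' ⋃ a ∈ S, T a))
    (h2 : ∑ i ∈ I, ∑ j ∈ I, ∫⁻ z, lam {z' | R (X i z) (X j z')} ∂lam ≤
      ENNReal.ofReal F) :
    ((I.card : ℝ) * x) ^ 2 ≤ S.card * F := by
  set v : ι → α → ℝ := fun i a => (lam (X i ⁻¹' T a)).toReal with hv
  have hv0 : ∀ i a, 0 ≤ v i a := fun i a => ENNReal.toReal_nonneg
  have e1 : ∀ i ∈ I, x ≤ ∑ a ∈ S, v i a := by
    intro i hi
    have h3 := h1 i hi
    rw [disjointed_sum lam (X i) (hX i hi) S T hT hdis] at h3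
    have h4 := ENNReal.toReal_mono (by
      rw [Ne, ENNReal.sum_eq_top]
      push Not
      exact fun a _ => measure_ne_top _ _) h3
    rw [ENNReal.toReal_ofReal hx, ENNReal.toReal_sum (fun a _ => measure_ne_top _ _)] at h4
    exact h4
  have e2 : (I.card : ℝ) * x ≤ ∑ a ∈ S, ∑ i ∈ I, v i a := by
    rw [Finset.sum_comm]
    calc (I.card : ℝ) * x = ∑ _i ∈ I, x := by rw [Finset.sum_const, nsmul_eq_mul]
      _ ≤ _ := Finset.sum_le_sum e1
  have e3 : (∑ a ∈ S, ∑ i ∈ I, v i a) ^ 2 ≤ S.card * ∑ a ∈ S, (∑ i ∈ I, v i a) ^ 2 :=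
    sq_sum_le_card_mul_sum_sq
  have e4 : ∑ a ∈ S, (∑ i ∈ I, v i a) ^ 2 ≤ F := by
    have e5 : ∑ a ∈ S, (∑ i ∈ I, v i a) ^ 2 = ∑ i ∈ I, ∑ j ∈ I, ∑ a ∈ S, v i a * v j a := by
      have : ∀ a ∈ S, (∑ i ∈ I, v i a) ^ 2 = ∑ i ∈ I, ∑ j ∈ I, v i a * v j a := by
        intro a _
        rw [sq, Finset.sum_mul_sum]
      rw [Finset.sum_congr rfl this, Finset.sum_comm]
      refine Finset.sum_congr rfl fun i _ => ?_
      rw [Finset.sum_comm]
    rw [e5]
    have e6 : ENNReal.ofReal (∑ i ∈ I, ∑ j ∈ I, ∑ a ∈ S, v i a * v j a) ≤ ENNReal.ofReal F := by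
      refine le_trans ?_ h2
      rw [ENNReal.ofReal_sum_of_nonneg (fun i _ => Finset.sum_nonneg fun j _ =>
        Finset.sum_nonneg fun a _ => mul_nonneg (hv0 i a) (hv0 j a))]
      refine Finset.sum_le_sum fun i hi => ?_
      rw [ENNReal.ofReal_sum_of_nonneg (fun j _ =>
        Finset.sum_nonneg fun a _ => mul_nonneg (hv0 i a) (hv0 j a))]
      refine Finset.sum_le_sum fun j hj => ?_
      rw [ENNReal.ofReal_sum_of_nonneg (fun a _ => mul_nonneg (hv0 i a) (hv0 j a))]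
      refine le_trans (le_of_eq ?_) (energy_ge lam (X i) (X j) (hX i hi) S T hT hdis R hd)
      refine Finset.sum_congr rfl fun a _ => ?_
      rw [ENNReal.ofReal_mul (hv0 i a), ENNReal.ofReal_toReal (measure_ne_top _ _),
        ENNReal.ofReal_toReal (measure_ne_top _ _)]
    exact (ENNReal.ofReal_le_ofReal_iff hF).1 e6
  calc ((I.card : ℝ) * x) ^ 2 ≤ (∑ a ∈ S, ∑ i ∈ I, v i a) ^ 2 :=
        pow_le_pow_left₀ (by positivity) e2 2
    _ ≤ S.card * ∑ a ∈ S, (∑ i ∈ I, v i a) ^ 2 := e3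
    _ ≤ S.card * F := mul_le_mul_of_nonneg_left e4 (by positivity)

/-- Counting with pairs of points. -/
theorem counting2 {Z E ι : Type*} [MeasurableSpace Z] [PseudoMetricSpace E]
    [MeasurableSpace E] (lam : Measure Z) [IsFiniteMeasure lam] (I : Finset ι) (X : ι → Z → E)
    (hX : ∀ i ∈ I, Measurable (X i)) (S : Finset ℕ) (T : ℕ → Set E)
    (hT : ∀ a, MeasurableSet (T a)) (δ x F : ℝ) (Φ : Set (Z × Z)) (hΦ : MeasurableSet Φ)
    (hx : 0 ≤ x) (hF : 0 ≤ F) (hd : ∀ a ∈ S, ∀ x ∈ T a, ∀ y ∈ T a, dist x y ≤ δ)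
    (h1 : ∀ i ∈ I, ENNReal.ofReal x ≤ lam (X i ⁻¹' ⋃ a ∈ S, T a))
    (hnear : (lam.prod lam) Φᶜ ≤ ENNReal.ofReal (x ^ 2 / 2))
    (h2 : ∑ i ∈ I, ∑ j ∈ I, ∫⁻ p in Φ, lam {z' | dist (X i p.1) (X j z') ≤ δ} *
      lam {z' | dist (X i p.2) (X j z') ≤ δ} ∂(lam.prod lam) ≤ ENNReal.ofReal F) :
    ((I.card : ℝ) * (x ^ 2 / 2)) ^ 2 ≤ (S.card : ℝ) ^ 2 * F := by
  classical
  set T' : ℕ → Set E := fun a => T a \ ⋃ b ∈ S.filter (· < a), T b with hT'
  have hsub : ∀ a, T' a ⊆ T a := fun a => sdiff_subset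
  have hU : ⋃ a ∈ S, T a ⊆ ⋃ a ∈ S, T' a := by
    intro y hy
    simp only [mem_iUnion] at hy
    have hex : ∃ a, a ∈ S ∧ y ∈ T a := by
      obtain ⟨a, ha, hya⟩ := hy
      exact ⟨a, ha, hya⟩
    refine mem_iUnion₂.2 ⟨Nat.find hex, (Nat.find_spec hex).1, (Nat.find_spec hex).2, ?_⟩
    intro hcon
    simp only [mem_iUnion, Finset.mem_filter] at hcon
    obtain ⟨b, ⟨hb, hlt⟩, hyb⟩ := hcon
    exact Nat.find_min hex hlt ⟨hb, hyb⟩
  have hdis : ∀ a ∈ S, ∀ b ∈ S, a ≠ b → Disjoint (T' a) (T' b) := by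
    intro a ha b hb hab
    rw [Set.disjoint_left]
    intro y hya hyb
    rcases lt_or_gt_of_ne hab with h | h
    · exact hyb.2 (mem_iUnion₂.2 ⟨a, Finset.mem_filter.2 ⟨ha, h⟩, hya.1⟩)
    · exact hya.2 (mem_iUnion₂.2 ⟨b, Finset.mem_filter.2 ⟨hb, h⟩, hyb.1⟩)
  have hT'm : ∀ a, MeasurableSet (T' a) := fun a => (hT a).diff
    (Finset.measurableSet_biUnion _ fun b _ => hT b)
  -- the product space
  set Lam : Measure (Z × Z) := (lam.prod lam).restrict Φ with hLam
  set X2 : ι → Z × Z → E × E := fun i p => (X i p.1, X i p.2) with hX2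
  set T2 : ℕ × ℕ → Set (E × E) := fun a => T' a.1 ×ˢ T' a.2 with hT2
  have hcount := counting_disjoint Lam I X2
    (fun i hi => ((hX i hi).comp measurable_fst).prodMk ((hX i hi).comp measurable_snd))
    (S ×ˢ S) T2 (fun a _ => (hT'm a.1).prod (hT'm a.2)) (by
      rintro ⟨a, a'⟩ ha ⟨b, b'⟩ hb hab
      rw [Finset.mem_coe, Finset.mem_product] at ha hb
      rw [Function.onFun, hT2]
      simp only
      by_cases h : a = b
      · have h' : a' ≠ b' := fun h' => hab (by rw [h, h'])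
        exact Set.disjoint_prod.2 (Or.inr (hdis _ ha.2 _ hb.2 h'))
      · exact Set.disjoint_prod.2 (Or.inl (hdis _ ha.1 _ hb.1 h)))
    (fun u v => dist u.1 v.1 ≤ δ ∧ dist u.2 v.2 ≤ δ) (x ^ 2 / 2) F (by positivity) hF
    (by
      rintro ⟨a, a'⟩ ha u hu v hv
      rw [Finset.mem_product] at ha
      exact ⟨hd a ha.1 _ (hsub a hu.1) _ (hsub a hv.1), hd a' ha.2 _ (hsub a' hu.2) _ (hsub a' hv.2)⟩)
    (by
      intro i hi
      set U : Set Z := X i ⁻¹' ⋃ a ∈ S, T' a with hUdef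
      have e1 : X2 i ⁻¹' (⋃ a ∈ S ×ˢ S, T2 a) = U ×ˢ U := by
        ext p
        simp only [hX2, hT2, hUdef, mem_preimage, mem_iUnion, Finset.mem_product, mem_prod,
          exists_prop, Prod.exists]
        constructor
        · rintro ⟨a, b, ⟨ha, hb⟩, h3, h4⟩
          exact ⟨⟨a, ha, h3⟩, ⟨b, hb, h4⟩⟩
        · rintro ⟨⟨a, ha, h3⟩, ⟨b, hb, h4⟩⟩
          exact ⟨a, b, ⟨ha, hb⟩, h3, h4⟩
      have hUm : MeasurableSet U := (hX i hi) (Finset.measurableSet_biUnion _ fun b _ => hT'm b)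
      have e2 : ENNReal.ofReal (x ^ 2) ≤ (lam.prod lam) (U ×ˢ U) := by
        rw [Measure.prod_prod, sq, ENNReal.ofReal_mul hx]
        have h3 := (h1 i hi).trans (measure_mono (preimage_mono hU))
        exact mul_le_mul' h3 h3
      have e3 : (lam.prod lam) (U ×ˢ U) ≤ Lam (U ×ˢ U) + (lam.prod lam) Φᶜ := by
        rw [hLam, Measure.restrict_apply (hUm.prod hUm)]
        refine (measure_mono ?_).trans (measure_union_le _ _)
        intro p hp
        by_cases h : p ∈ Φ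
        · exact Or.inl ⟨hp, h⟩
        · exact Or.inr h
      rw [e1]
      have e4 : ENNReal.ofReal (x ^ 2) ≤ Lam (U ×ˢ U) + ENNReal.ofReal (x ^ 2 / 2) :=
        e2.trans (e3.trans (add_le_add le_rfl hnear))
      have e5 : ENNReal.ofReal (x ^ 2) = ENNReal.ofReal (x ^ 2 / 2) + ENNReal.ofReal (x ^ 2 / 2) := by
        rw [← ENNReal.ofReal_add (by positivity) (by positivity)]
        congr 1
        ring
      rw [e5] at e4
      exact (ENNReal.add_le_add_iff_right ENNReal.ofReal_ne_top).1 e4)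
    (by
      refine le_trans (Finset.sum_le_sum fun i hi => Finset.sum_le_sum fun j hj => ?_) h2
      rw [hLam]
      refine lintegral_mono fun p => ?_
      refine (Measure.restrict_apply_le _ _).trans (le_of_eq ?_)
      rw [← Measure.prod_prod]
      rfl)
  rw [Finset.card_product] at hcount
  push_cast at hcount
  rw [sq (S.card : ℝ)]
  exact hcount

/-- The weights. -/
noncomputable def wt (l : ℕ) : ℝ := (max (l : ℝ) 1) ^ (-(4 : ℝ) / 3)

theorem wt_nonneg (l : ℕ) : 0 ≤ wt l := Real.rpow_nonneg (by positivity) _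

theorem summable_wt : Summable wt := by
  rw [← summable_nat_add_iff 1]
  have h : Summable fun l : ℕ => (((l + 1 : ℕ) : ℝ)) ^ (-(4 : ℝ) / 3) :=
    (summable_nat_add_iff 1).2 (Real.summable_nat_rpow.2 (by norm_num))
  refine h.congr fun l => ?_
  unfold wt
  rw [max_eq_left (by push_cast; linarith [(Nat.cast_nonneg l : (0 : ℝ) ≤ l)])]

theorem sum_wt (L : ℕ) : ∑ l ∈ Finset.range L, wt l ≤ ∑' l, wt l :=
  summable_wt.sum_le_tsum _ fun l _ => wt_nonneg l

/-- The distance of two natural numbers. -/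
def nd (i j : ℕ) : ℕ := (i - j) + (j - i)

theorem sum_wt_nd (L i : ℕ) (hi : i < L) : ∑ j ∈ Finset.range L, wt (nd i j) ≤
    2 * ∑' l, wt l := by
  classical
  rw [Finset.sum_comp wt (nd i)]
  have hsub : (Finset.range L).image (nd i) ⊆ Finset.range L := by
    intro l hl
    obtain ⟨j, hj, rfl⟩ := Finset.mem_image.1 hl
    rw [Finset.mem_range] at hj ⊢
    unfold nd
    omega
  have hcard : ∀ l, ((Finset.range L).filter fun j => nd i j = l).card ≤ 2 := by
    intro l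
    have : ((Finset.range L).filter fun j => nd i j = l) ⊆ {i - l, i + l} := by
      intro j hj
      rw [Finset.mem_filter] at hj
      rw [Finset.mem_insert, Finset.mem_singleton]
      have := hj.2
      unfold nd at this
      omega
    exact (Finset.card_le_card this).trans Finset.card_le_two
  calc ∑ l ∈ (Finset.range L).image (nd i), ((Finset.range L).filter fun j => nd i j = l).card •
        wt l ≤ ∑ l ∈ (Finset.range L).image (nd i), 2 * wt l := by
        refine Finset.sum_le_sum fun l _ => ?_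
        rw [nsmul_eq_mul]
        exact mul_le_mul_of_nonneg_right (by exact_mod_cast hcard l) (wt_nonneg l)
    _ ≤ ∑ l ∈ Finset.range L, 2 * wt l :=
        Finset.sum_le_sum_of_subset_of_nonneg hsub fun l _ _ => mul_nonneg (by norm_num) (wt_nonneg l)
    _ = 2 * ∑ l ∈ Finset.range L, wt l := by rw [Finset.mul_sum]
    _ ≤ 2 * ∑' l, wt l := mul_le_mul_of_nonneg_left (sum_wt L) (by norm_num)

end Pool.Agent.Y322.KS
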