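import Pool.Agent.Y322.KS.Pair

/-!
# Points of the fibres of a family of diagonal quadratic forms, and their correlations
-/

set_option autoImplicit false

open Set MeasureTheory
open scoped ENNReal

namespace Pool.Agent.Y322.KS

/-- The point with the squares of coordinates `(A l + s ω l)² + V y l`. -/
noncomputable def pt {n m : ℕ} (A ω : Fin n → ℝ) (V : (Fin m → ℝ) →ₗ[ℝ] (Fin n → ℝ))
    (z : ℝ × (Fin m → ℝ)) : EuclideanSpace ℝ (Fin n) :=
  WithLp.toLp 2 (fun l => (if 0 ≤ A l + z.1 * ω l then 1 else -1) *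
    Real.sqrt ((A l + z.1 * ω l) ^ 2 + V z.2 l))

theorem pt_apply {n m : ℕ} (A ω : Fin n → ℝ) (V : (Fin m → ℝ) →ₗ[ℝ] (Fin n → ℝ))
    (z : ℝ × (Fin m → ℝ)) (l : Fin n) : pt A ω V z l = (if 0 ≤ A l + z.1 * ω l then 1 else -1) *
    Real.sqrt ((A l + z.1 * ω l) ^ 2 + V z.2 l) := rfl

theorem sgn_sq (x : ℝ) : (if 0 ≤ x then (1 : ℝ) else -1) ^ 2 = 1 := by
  split_ifs <;> norm_num

theorem pt_sq {n m : ℕ} (A ω : Fin n → ℝ) (V : (Fin m → ℝ) →ₗ[ℝ] (Fin n → ℝ))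
    (z : ℝ × (Fin m → ℝ)) (l : Fin n) (h : 0 ≤ (A l + z.1 * ω l) ^ 2 + V z.2 l) :
    (pt A ω V z l) ^ 2 = (A l + z.1 * ω l) ^ 2 + V z.2 l := by
  rw [pt_apply, mul_pow, sgn_sq, one_mul, Real.sq_sqrt h]

theorem measurable_pt {n m : ℕ} (A ω : Fin n → ℝ) (V : (Fin m → ℝ) →ₗ[ℝ] (Fin n → ℝ)) :
    Measurable (pt A ω V) := by
  have hV : ∀ l, Continuous fun z : ℝ × (Fin m → ℝ) => V z.2 l := fun l =>
    (continuous_apply l).comp (V.continuous_of_finiteDimensional.comp continuous_snd)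
  have h : Measurable (fun z : ℝ × (Fin m → ℝ) => fun l : Fin n =>
      (if 0 ≤ A l + z.1 * ω l then (1 : ℝ) else -1) *
        Real.sqrt ((A l + z.1 * ω l) ^ 2 + V z.2 l)) := by
    refine measurable_pi_lambda _ fun l => ?_
    refine Measurable.mul ?_ ?_
    · refine Measurable.ite ?_ measurable_const measurable_const
      exact measurableSet_le measurable_const (by fun_prop)
    · exact (Continuous.sqrt ((by fun_prop : Continuous fun z : ℝ × (Fin m → ℝ) =>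
        (A l + z.1 * ω l) ^ 2).add (hV l))).measurable
  exact (PiLp.continuous_toLp 2 (fun _ : Fin n => ℝ)).measurable.comp h

/-- Conditions on a segment. -/
structure Good {n : ℕ} (η c₁ M : ℝ) (A ω : Fin n → ℝ) : Prop where
  low : ∀ l, ∀ s ∈ Icc (0 : ℝ) η, c₁ ≤ |A l + s * ω l|
  bd : ∀ l, |A l| ≤ M
  dir : ∀ l, |ω l| ≤ 1
  unit : ∑ l, ω l ^ 2 = 1
  mono : ∀ s ∈ Icc (0 : ℝ) η, η ≤ |∑ l, A l * ω l + s|

theorem vol_fibre {n m : ℕ} (V : (Fin m → ℝ) →ₗ[ℝ] (Fin n → ℝ)) (K : NNReal)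
    (hV : AntilipschitzWith K V) (a : Fin n → ℝ) (ε : ℝ) (hε : 0 ≤ ε) :
    volume {y : Fin m → ℝ | ∀ l, |V y l - a l| ≤ ε} ≤ ENNReal.ofReal ((4 * K * ε) ^ m) := by
  rcases {y : Fin m → ℝ | ∀ l, |V y l - a l| ≤ ε}.eq_empty_or_nonempty with h | ⟨y₁, h₁⟩
  · rw [h]
    simp
  · have hsub : {y : Fin m → ℝ | ∀ l, |V y l - a l| ≤ ε} ⊆ Metric.closedBall y₁ (2 * K * ε) := by
      intro y hy
      rw [Metric.mem_closedBall]
      have h1 := hV.le_mul_dist y y₁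
      have h2 : dist (V y) (V y₁) ≤ 2 * ε := by
        rw [dist_pi_le_iff (by positivity)]
        intro l
        rw [Real.dist_eq]
        have e1 := abs_le.1 (hy l)
        have e2 := abs_le.1 (h₁ l)
        rw [abs_le]
        constructor <;> linarith
      calc dist y y₁ ≤ K * dist (V y) (V y₁) := h1
        _ ≤ K * (2 * ε) := mul_le_mul_of_nonneg_left h2 K.2
        _ = 2 * K * ε := by ring
    refine (measure_mono hsub).trans (le_of_eq ?_)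
    rw [Real.volume_pi_closedBall _ (by positivity), Fintype.card_fin]
    congr 2
    ring

/-- The coefficients of the form `∑ ν l x l²` on a segment. -/
theorem form_eq {n : ℕ} (ν A ω : Fin n → ℝ) (s : ℝ) :
    ∑ l, ν l * (A l + s * ω l) ^ 2 =
      (∑ l, ν l * ω l ^ 2) * s ^ 2 + 2 * (∑ l, ν l * (A l * ω l)) * s + ∑ l, ν l * A l ^ 2 := by
  rw [Finset.sum_mul, Finset.mul_sum, Finset.sum_mul, ← Finset.sum_add_distrib,
    ← Finset.sum_add_distrib]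
  exact Finset.sum_congr rfl fun l _ => by ring

/-- The set of pairs for two segments. -/
def cp {n : ℕ} (η : ℝ) (μ A ω A' ω' : Fin n → ℝ) (ε : ℝ) : Set (ℝ × ℝ) :=
  closePairs η (∑ l, A l * ω l) (∑ l, A l ^ 2) (∑ l, μ l * ω l ^ 2) (∑ l, μ l * (A l * ω l))
    (∑ l, μ l * A l ^ 2) (∑ l, A' l * ω' l) (∑ l, A' l ^ 2) (∑ l, μ l * ω' l ^ 2)
    (∑ l, μ l * (A' l * ω' l)) (∑ l, μ l * A' l ^ 2) ε

theorem close_of_dist {n m : ℕ} {η c₁ M b : ℝ} {μ A ω A' ω' : Fin n → ℝ}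
    {V : (Fin m → ℝ) →ₗ[ℝ] (Fin n → ℝ)} (hη : η ≤ 1) (hM : 1 ≤ M) (hc : 0 < c₁)
    (hb : b ≤ c₁ ^ 2 / 2) (hb1 : b ≤ 1) (hG : Good η c₁ M A ω) (hG' : Good η c₁ M A' ω')
    (hV1 : ∀ y, ∑ l, V y l = 0) (hVμ : ∀ y, ∑ l, μ l * V y l = 0) {z z' : ℝ × (Fin m → ℝ)}
    (hz : z.1 ∈ Icc 0 η) (hz' : z'.1 ∈ Icc 0 η) (hy : ∀ l, |V z.2 l| ≤ b)
    (hy' : ∀ l, |V z'.2 l| ≤ b) {δ N : ℝ} (hδ : 0 ≤ δ) (hd : dist (pt A ω V z) (pt A' ω' V z') ≤ δ)
    (hN1 : (n : ℝ) ≤ N) (hNμ : ∑ l, |μ l| ≤ N) :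
    (z.1, z'.1) ∈ cp η μ A ω A' ω' (N * (6 * M * δ)) ∧
      ∀ l, |V z'.2 l - ((A l + z.1 * ω l) ^ 2 + V z.2 l - (A' l + z'.1 * ω' l) ^ 2)| ≤
        6 * M * δ := by
  have hpos : ∀ l, 0 ≤ (A l + z.1 * ω l) ^ 2 + V z.2 l := fun l => by
    have h1 := hG.low l z.1 hz
    have h2 : c₁ ^ 2 ≤ (A l + z.1 * ω l) ^ 2 := by
      rw [← sq_abs (A l + z.1 * ω l)]
      exact pow_le_pow_left₀ hc.le h1 2
    have h3 := (abs_le.1 (hy l)).1
    nlinarith
  have hpos' : ∀ l, 0 ≤ (A' l + z'.1 * ω' l) ^ 2 + V z'.2 l := fun l => by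
    have h1 := hG'.low l z'.1 hz'
    have h2 : c₁ ^ 2 ≤ (A' l + z'.1 * ω' l) ^ 2 := by
      rw [← sq_abs (A' l + z'.1 * ω' l)]
      exact pow_le_pow_left₀ hc.le h1 2
    have h3 := (abs_le.1 (hy' l)).1
    nlinarith
  have hub : ∀ (B ν : Fin n → ℝ) (w : ℝ × (Fin m → ℝ)), Good η c₁ M B ν → w.1 ∈ Icc 0 η →
      (∀ l, |V w.2 l| ≤ b) → (∀ l, 0 ≤ (B l + w.1 * ν l) ^ 2 + V w.2 l) → ∀ l,
      |pt B ν V w l| ≤ 3 * M := by
    intro B ν w hB hw hyw hp l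
    have h1 : |B l + w.1 * ν l| ≤ M + 1 := by
      refine (abs_add_le _ _).trans (add_le_add (hB.bd l) ?_)
      rw [abs_mul, abs_of_nonneg hw.1]
      calc w.1 * |ν l| ≤ 1 * 1 := mul_le_mul (hw.2.trans hη) (hB.dir l) (abs_nonneg _) (by norm_num)
        _ = 1 := by norm_num
    have h2 : (B l + w.1 * ν l) ^ 2 ≤ (M + 1) ^ 2 := by
      rw [← sq_abs (B l + w.1 * ν l)]
      exact pow_le_pow_left₀ (abs_nonneg _) h1 2
    have h3 : (pt B ν V w l) ^ 2 ≤ (3 * M) ^ 2 := by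
      rw [pt_sq _ _ _ _ _ (hp l)]
      have := (abs_le.1 (hyw l)).2
      nlinarith
    exact abs_le_of_sq_le_sq h3 (by linarith)
  have hcoord : ∀ l, |(pt A ω V z l) - (pt A' ω' V z' l)| ≤ δ := fun l => by
    have h1 : ‖(pt A ω V z - pt A' ω' V z') l‖ ≤ ‖pt A ω V z - pt A' ω' V z'‖ :=
      PiLp.norm_apply_le _ l
    rw [← dist_eq_norm] at h1
    exact h1.trans hd
  have hsq : ∀ l, |((A l + z.1 * ω l) ^ 2 + V z.2 l) - ((A' l + z'.1 * ω' l) ^ 2 + V z'.2 l)| ≤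
      6 * M * δ := fun l => by
    rw [← pt_sq _ _ _ _ _ (hpos l), ← pt_sq _ _ _ _ _ (hpos' l)]
    have e : (pt A ω V z l) ^ 2 - (pt A' ω' V z' l) ^ 2 =
      ((pt A ω V z l) + (pt A' ω' V z' l)) * ((pt A ω V z l) - (pt A' ω' V z' l)) := by ring
    rw [e, abs_mul]
    refine mul_le_mul ?_ (hcoord l) (abs_nonneg _) (by positivity)
    have h1 := hub A ω z hG hz hy hpos l
    have h2 := hub A' ω' z' hG' hz' hy' hpos' l
    exact (abs_add_le _ _).trans (by linarith)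
  have hform : ∀ ν : Fin n → ℝ, (∀ y, ∑ l, ν l * V y l = 0) → ∑ l, |ν l| ≤ N →
      |∑ l, ν l * (A l + z.1 * ω l) ^ 2 - ∑ l, ν l * (A' l + z'.1 * ω' l) ^ 2| ≤
        N * (6 * M * δ) := by
    intro ν h1 h2
    have e : ∑ l, ν l * (A l + z.1 * ω l) ^ 2 - ∑ l, ν l * (A' l + z'.1 * ω' l) ^ 2 =
        ∑ l, ν l * (((A l + z.1 * ω l) ^ 2 + V z.2 l) - ((A' l + z'.1 * ω' l) ^ 2 + V z'.2 l)) := by
      have e1 : ∑ l, ν l * (((A l + z.1 * ω l) ^ 2 + V z.2 l) -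
          ((A' l + z'.1 * ω' l) ^ 2 + V z'.2 l)) =
          (∑ l, ν l * (A l + z.1 * ω l) ^ 2 + ∑ l, ν l * V z.2 l) -
          (∑ l, ν l * (A' l + z'.1 * ω' l) ^ 2 + ∑ l, ν l * V z'.2 l) := by
        rw [← Finset.sum_add_distrib, ← Finset.sum_add_distrib, ← Finset.sum_sub_distrib]
        exact Finset.sum_congr rfl fun l _ => by ring
      rw [e1, h1, h1]
      ring
    rw [e]
    calc _ ≤ ∑ l, |ν l * (((A l + z.1 * ω l) ^ 2 + V z.2 l) -
          ((A' l + z'.1 * ω' l) ^ 2 + V z'.2 l))| := Finset.abs_sum_le_sum_abs _ _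
      _ ≤ ∑ l, |ν l| * (6 * M * δ) := Finset.sum_le_sum fun l _ => by
          rw [abs_mul]
          exact mul_le_mul_of_nonneg_left (hsq l) (abs_nonneg _)
      _ = (∑ l, |ν l|) * (6 * M * δ) := by rw [Finset.sum_mul]
      _ ≤ N * (6 * M * δ) := mul_le_mul_of_nonneg_right h2 (by positivity)
  refine ⟨⟨hz, hz', ?_, ?_⟩, fun l => ?_⟩
  · have h1 := hform (fun _ => 1) (fun y => by simpa using hV1 y) (by simpa using hN1)
    rw [form_eq, form_eq] at h1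
    simp only [one_mul, hG.unit, hG'.unit] at h1
    exact h1
  · have h1 := hform μ hVμ hNμ
    rw [form_eq, form_eq] at h1
    exact h1
  · have h1 := hsq l
    rw [abs_sub_comm] at h1
    convert h1 using 2
    ring

/-- The domain of parameters. -/
def dom (m : ℕ) (η ρ : ℝ) : Set (ℝ × (Fin m → ℝ)) :=
  Icc (0 : ℝ) η ×ˢ Metric.closedBall (0 : Fin m → ℝ) ρ

theorem dom_meas (m : ℕ) (η ρ : ℝ) : MeasurableSet (dom m η ρ) :=
  measurableSet_Icc.prod Metric.isClosed_closedBall.measurableSet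

theorem vol_dom (m : ℕ) (η ρ : ℝ) (hη : 0 ≤ η) (hρ : 0 ≤ ρ) :
    volume (dom m η ρ) = ENNReal.ofReal (η * (2 * ρ) ^ m) := by
  unfold dom
  rw [Measure.volume_eq_prod, Measure.prod_prod, Real.volume_Icc,
    Real.volume_pi_closedBall _ hρ, Fintype.card_fin, sub_zero, ← ENNReal.ofReal_mul hη]

/-- The measure of the points of the second family close to a point of the first one. -/
theorem inner_le {n m : ℕ} {η c₁ M ρ : ℝ} {μ A ω A' ω' : Fin n → ℝ}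
    {V : (Fin m → ℝ) →ₗ[ℝ] (Fin n → ℝ)} (hη0 : 0 < η) (hη : η ≤ 1) (hM : 1 ≤ M) (hc : 0 < c₁)
    (hρ : ∀ y ∈ Metric.closedBall (0 : Fin m → ℝ) ρ, ∀ l, |V y l| ≤ c₁ ^ 2 / 2 ∧ |V y l| ≤ 1)
    (hG : Good η c₁ M A ω) (hG' : Good η c₁ M A' ω')
    (hV1 : ∀ y, ∑ l, V y l = 0) (hVμ : ∀ y, ∑ l, μ l * V y l = 0) (K : NNReal)
    (hK : AntilipschitzWith K V) {δ N : ℝ} (hδ : 0 ≤ δ) (hN1 : (n : ℝ) ≤ N)
    (hNμ : ∑ l, |μ l| ≤ N) (T : Set ℝ)
    (hT : ∀ s t : ℝ, (s, t) ∈ cp η μ A ω A' ω' (N * (6 * M * δ)) → s ∈ T)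
    (z : ℝ × (Fin m → ℝ)) (hz : z ∈ dom m η ρ) :
    volume {z' | z' ∈ dom m η ρ ∧ dist (pt A ω V z) (pt A' ω' V z') ≤ δ} ≤
      T.indicator (fun _ => ENNReal.ofReal ((4 * K * (6 * M * δ)) ^ m) *
        ENNReal.ofReal (2 * (N * (6 * M * δ) / η))) z.1 := by
  set C : Set (ℝ × ℝ) := cp η μ A ω A' ω' (N * (6 * M * δ)) with hC
  have hCm : MeasurableSet C := close_meas _ _ _ _ _ _ _ _ _ _ _ _
  set κ : ℝ≥0∞ := ENNReal.ofReal ((4 * K * (6 * M * δ)) ^ m) with hκ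
  have hb : ∀ y ∈ Metric.closedBall (0 : Fin m → ℝ) ρ, ∀ l, |V y l| ≤ min (c₁ ^ 2 / 2) 1 :=
    fun y hy l => le_min (hρ y hy l).1 (hρ y hy l).2
  have hin : volume {z' | z' ∈ dom m η ρ ∧ dist (pt A ω V z) (pt A' ω' V z') ≤ δ} ≤
        κ * volume (Prod.mk z.1 ⁻¹' C) := by
    have hms : MeasurableSet {z' | z' ∈ dom m η ρ ∧ dist (pt A ω V z) (pt A' ω' V z') ≤ δ} := by
      refine (dom_meas m η ρ).inter ?_
      exact measurableSet_le (measurable_const.dist (measurable_pt A' ω' V)) measurable_const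
    rw [Measure.volume_eq_prod, Measure.prod_apply hms]
    have h1 : ∀ s' : ℝ, volume (Prod.mk s' ⁻¹'
        {z' | z' ∈ dom m η ρ ∧ dist (pt A ω V z) (pt A' ω' V z') ≤ δ}) ≤
        (Prod.mk z.1 ⁻¹' C).indicator (fun _ => κ) s' := by
      intro s'
      by_cases hs : s' ∈ Prod.mk z.1 ⁻¹' C
      · rw [indicator_of_mem hs]
        refine (measure_mono ?_).trans (vol_fibre V K hK
          (fun l => (A l + z.1 * ω l) ^ 2 + V z.2 l - (A' l + s' * ω' l) ^ 2) (6 * M * δ)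
          (by positivity))
        rintro y' ⟨hy', hd⟩
        exact (close_of_dist (z := z) (z' := (s', y')) hη hM hc (min_le_left _ _)
          (min_le_right _ _) hG hG' hV1 hVμ hz.1 hy'.1 (hb _ hz.2) (hb _ hy'.2) hδ hd hN1 hNμ).2
      · rw [indicator_of_notMem hs]
        have : Prod.mk s' ⁻¹' {z' | z' ∈ dom m η ρ ∧ dist (pt A ω V z) (pt A' ω' V z') ≤ δ} =
            ∅ := by
          ext y'
          simp only [mem_preimage, mem_empty_iff_false, iff_false]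
          rintro ⟨hy', hd⟩
          exact hs (close_of_dist (z := z) (z' := (s', y')) hη hM hc (min_le_left _ _)
            (min_le_right _ _) hG hG' hV1 hVμ hz.1 hy'.1 (hb _ hz.2) (hb _ hy'.2) hδ hd hN1 hNμ).1
        rw [this]
        simp
    refine (lintegral_mono h1).trans ?_
    rw [lintegral_indicator (measurable_prodMk_left hCm), lintegral_const,
      Measure.restrict_apply_univ]
  refine hin.trans ?_
  by_cases hzT : z.1 ∈ T
  · rw [indicator_of_mem hzT]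
    gcongr
    refine (measure_mono ?_).trans (slice_small η (∑ l, A' l * ω' l)
      (z.1 ^ 2 + 2 * (∑ l, A l * ω l) * z.1 + (∑ l, A l ^ 2) - (∑ l, A' l ^ 2))
      (N * (6 * M * δ)) hη0 (fun s hs => hG'.mono s hs))
    rintro t ⟨-, ht, h1, -⟩
    refine ⟨ht, ?_⟩
    convert h1 using 2
    ring
  · rw [indicator_of_notMem hzT]
    have : Prod.mk z.1 ⁻¹' C = ∅ := by
      ext t
      simp only [mem_preimage, mem_empty_iff_false, iff_false]
      intro h1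
      exact hzT (hT _ _ h1)
    rw [this]
    simp

/-- The far pairs of points of the domain. -/
def farSet (m : ℕ) (c₀ : ℝ) : Set ((ℝ × (Fin m → ℝ)) × (ℝ × (Fin m → ℝ))) :=
  {p | c₀ ≤ |p.1.1 - p.2.1|}

theorem farSet_meas (m : ℕ) (c₀ : ℝ) : MeasurableSet (farSet m c₀) :=
  (isClosed_le continuous_const (by fun_prop)).measurableSet

/-- The measure of the far pairs over a set of parameters. -/
theorem far_prod {m : ℕ} {η ρ c₀ : ℝ} (hρ0 : 0 ≤ ρ) (T : Set ℝ) (hT : MeasurableSet T) :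
    ((volume.restrict (dom m η ρ)).prod (volume.restrict (dom m η ρ)))
      {p | p.1.1 ∈ T ∧ p.2.1 ∈ T ∧ c₀ ≤ |p.1.1 - p.2.1|} ≤
    ENNReal.ofReal ((2 * ρ) ^ m) * (ENNReal.ofReal ((2 * ρ) ^ m) *
      volume {p : ℝ × ℝ | p.1 ∈ T ∧ p.2 ∈ T ∧ c₀ ≤ |p.1 - p.2|}) := by
  set F : Set (ℝ × ℝ) := {p : ℝ × ℝ | p.1 ∈ T ∧ p.2 ∈ T ∧ c₀ ≤ |p.1 - p.2|} with hF
  have hFm : MeasurableSet F := by
    have h : MeasurableSet {p : ℝ × ℝ | c₀ ≤ |p.1 - p.2|} :=
      (isClosed_le continuous_const (by fun_prop)).measurableSet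
    exact (measurable_fst hT).inter ((measurable_snd hT).inter h)
  set W : Set ((ℝ × (Fin m → ℝ)) × (ℝ × (Fin m → ℝ))) :=
    {p | p.1.1 ∈ T ∧ p.2.1 ∈ T ∧ c₀ ≤ |p.1.1 - p.2.1|} with hW
  have hWm : MeasurableSet W := by
    have : W = (fun p : (ℝ × (Fin m → ℝ)) × (ℝ × (Fin m → ℝ)) => (p.1.1, p.2.1)) ⁻¹' F := rfl
    rw [this]
    exact (by fun_prop : Measurable (fun p : (ℝ × (Fin m → ℝ)) × (ℝ × (Fin m → ℝ)) =>
      (p.1.1, p.2.1))) hFm
  rw [Measure.prod_apply hWm]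
  have hmeas : Measurable fun s : ℝ => volume (Prod.mk s ⁻¹' F) := measurable_measure_prodMk_left hFm
  have h1 : ∀ z : ℝ × (Fin m → ℝ), (volume.restrict (dom m η ρ)) (Prod.mk z ⁻¹' W) ≤
      volume (Prod.mk z.1 ⁻¹' F) * ENNReal.ofReal ((2 * ρ) ^ m) := by
    intro z
    have e : Prod.mk z ⁻¹' W = (Prod.mk z.1 ⁻¹' F) ×ˢ (univ : Set (Fin m → ℝ)) := by
      ext z'
      simp only [hW, hF, mem_preimage, mem_ofPred_eq, mem_prod, mem_univ, and_true]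
    rw [e]
    unfold dom
    rw [Measure.volume_eq_prod ℝ (Fin m → ℝ), ← Measure.prod_restrict, Measure.prod_prod,
      Measure.restrict_apply_univ, Real.volume_pi_closedBall _ hρ0, Fintype.card_fin]
    gcongr
    exact Measure.restrict_le_self
  refine (lintegral_mono h1).trans ?_
  unfold dom
  rw [Measure.volume_eq_prod ℝ (Fin m → ℝ), ← Measure.prod_restrict,
    lintegral_prod (fun z : ℝ × (Fin m → ℝ) => volume (Prod.mk z.1 ⁻¹' F) *
      ENNReal.ofReal ((2 * ρ) ^ m)) ((hmeas.comp measurable_fst).mul_const _).aemeasurable]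
  simp only [lintegral_const, Measure.restrict_apply_univ]
  rw [lintegral_mul_const _ (hmeas.mul_const _), lintegral_mul_const _ hmeas,
    Real.volume_pi_closedBall _ hρ0, Fintype.card_fin, mul_comm]
  refine mul_le_mul' le_rfl ?_
  rw [mul_comm]
  refine mul_le_mul' le_rfl ?_
  rw [Measure.volume_eq_prod, Measure.prod_apply hFm]
  exact setLIntegral_le_lintegral _ _

/-- The two point energy of two segments. -/
theorem energy2 {n m : ℕ} {η c₁ M ρ : ℝ} {μ A ω A' ω' : Fin n → ℝ}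
    {V : (Fin m → ℝ) →ₗ[ℝ] (Fin n → ℝ)} (hη0 : 0 < η) (hη : η ≤ 1) (hM : 1 ≤ M) (hc : 0 < c₁)
    (hρ0 : 0 ≤ ρ)
    (hρ : ∀ y ∈ Metric.closedBall (0 : Fin m → ℝ) ρ, ∀ l, |V y l| ≤ c₁ ^ 2 / 2 ∧ |V y l| ≤ 1)
    (hG : Good η c₁ M A ω) (hG' : Good η c₁ M A' ω')
    (hV1 : ∀ y, ∑ l, V y l = 0) (hVμ : ∀ y, ∑ l, μ l * V y l = 0) (K : NNReal)
    (hK : AntilipschitzWith K V) {δ N c₀ : ℝ} (hδ : 0 ≤ δ) (hN1 : (n : ℝ) ≤ N)
    (hNμ : ∑ l, |μ l| ≤ N) (T : Set ℝ) (hTm : MeasurableSet T)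
    (hT : ∀ s t : ℝ, (s, t) ∈ cp η μ A ω A' ω' (N * (6 * M * δ)) → s ∈ T) :
    ∫⁻ p in farSet m c₀, (volume.restrict (dom m η ρ)) {z' | dist (pt A ω V p.1) (pt A' ω' V z') ≤ δ}
      * (volume.restrict (dom m η ρ)) {z' | dist (pt A ω V p.2) (pt A' ω' V z') ≤ δ}
      ∂((volume.restrict (dom m η ρ)).prod (volume.restrict (dom m η ρ))) ≤
      (ENNReal.ofReal ((4 * K * (6 * M * δ)) ^ m) *
        ENNReal.ofReal (2 * (N * (6 * M * δ) / η))) ^ 2 *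
      (ENNReal.ofReal ((2 * ρ) ^ m) * (ENNReal.ofReal ((2 * ρ) ^ m) *
        volume {p : ℝ × ℝ | p.1 ∈ T ∧ p.2 ∈ T ∧ c₀ ≤ |p.1 - p.2|})) := by
  set κ : ℝ≥0∞ := ENNReal.ofReal ((4 * K * (6 * M * δ)) ^ m) *
        ENNReal.ofReal (2 * (N * (6 * M * δ) / η)) with hκ
  have hres : ∀ z, (volume.restrict (dom m η ρ)) {z' | dist (pt A ω V z) (pt A' ω' V z') ≤ δ} =
      volume {z' | z' ∈ dom m η ρ ∧ dist (pt A ω V z) (pt A' ω' V z') ≤ δ} := by
    intro z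
    have hms : MeasurableSet {z' | dist (pt A ω V z) (pt A' ω' V z') ≤ δ} :=
      measurableSet_le (measurable_const.dist (measurable_pt _ _ _)) measurable_const
    rw [Measure.restrict_apply hms]
    congr 1
    ext z'
    simp only [mem_inter_iff, mem_ofPred_eq]
    tauto
  simp only [hres]
  have hin := inner_le hη0 hη hM hc hρ hG hG' hV1 hVμ K hK hδ hN1 hNμ T hT
  rw [← hκ] at hin
  set W : Set ((ℝ × (Fin m → ℝ)) × (ℝ × (Fin m → ℝ))) :=
    {p | p.1.1 ∈ T ∧ p.2.1 ∈ T ∧ c₀ ≤ |p.1.1 - p.2.1|} with hW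
  have hWm : MeasurableSet W := by
    refine ((measurable_fst.comp measurable_fst) hTm).inter
      (((measurable_fst.comp measurable_snd) hTm).inter (farSet_meas m c₀))
  rw [Measure.prod_restrict, Measure.restrict_restrict (farSet_meas m c₀)]
  have hset : MeasurableSet (farSet m c₀ ∩ dom m η ρ ×ˢ dom m η ρ) :=
    (farSet_meas m c₀).inter ((dom_meas m η ρ).prod (dom_meas m η ρ))
  calc ∫⁻ p in farSet m c₀ ∩ dom m η ρ ×ˢ dom m η ρ,
        volume {z' | z' ∈ dom m η ρ ∧ dist (pt A ω V p.1) (pt A' ω' V z') ≤ δ} *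
        volume {z' | z' ∈ dom m η ρ ∧ dist (pt A ω V p.2) (pt A' ω' V z') ≤ δ}
        ∂(volume.prod volume)
      ≤ ∫⁻ p in farSet m c₀ ∩ dom m η ρ ×ˢ dom m η ρ, W.indicator (fun _ => κ ^ 2) p
        ∂(volume.prod volume) := by
        refine setLIntegral_mono' hset fun p hp => ?_
        refine (mul_le_mul' (hin p.1 hp.2.1) (hin p.2 hp.2.2)).trans ?_
        by_cases h1 : p.1.1 ∈ T
        · by_cases h2 : p.2.1 ∈ T
          · have hpW : p ∈ W := ⟨h1, h2, hp.1⟩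
            rw [indicator_of_mem h1, indicator_of_mem h2, indicator_of_mem hpW, sq]
          · rw [indicator_of_notMem h2, mul_zero]
            exact zero_le
        · rw [indicator_of_notMem h1, zero_mul]
          exact zero_le
    _ ≤ ∫⁻ p in dom m η ρ ×ˢ dom m η ρ, W.indicator (fun _ => κ ^ 2) p ∂(volume.prod volume) :=
        lintegral_mono_set inter_subset_right
    _ = κ ^ 2 * ((volume.restrict (dom m η ρ)).prod (volume.restrict (dom m η ρ))) W := by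
        rw [← Measure.prod_restrict, lintegral_indicator hWm, lintegral_const,
          Measure.restrict_apply_univ]
    _ ≤ _ := by
        gcongr
        exact far_prod hρ0 T hTm

end Pool.Agent.Y322.KS
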