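import Pool.Agent.Y322.KS.Count
import Pool.Agent.Y322.KS.Fiber
import Pool.Agent.W605.HD.Cov

/-!
# The dimension of a union of fibres over a family of segments
-/

set_option autoImplicit false

open Set MeasureTheory
open scoped ENNReal NNReal

namespace Pool.Agent.Y322.KS

theorem closure_dist {E : Type*} [PseudoMetricSpace E] {t : Set E} {r : ℝ}
    (h : ∀ x ∈ t, ∀ y ∈ t, dist x y ≤ r) : ∀ x ∈ closure t, ∀ y ∈ closure t, dist x y ≤ r := by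
  have hcl : IsClosed {p : E × E | dist p.1 p.2 ≤ r} := isClosed_le continuous_dist continuous_const
  have hsub : t ×ˢ t ⊆ {p : E × E | dist p.1 p.2 ≤ r} := fun p hp => h p.1 hp.1 p.2 hp.2
  have := closure_minimal hsub hcl
  rw [closure_prod_eq] at this
  exact fun x hx y hy => this (mk_mem_prod hx hy)

/-- The pair estimate for two segments of the family in given cells of a grid. -/
theorem pair_grid {n : ℕ} {η c₁ M N κ₀ : ℝ} (μ : Fin n → ℝ) (hη0 : 0 < η) (hη1 : η ≤ 1)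
    (hM : 1 ≤ M) (hN1 : (n : ℝ) ≤ N) (hNp : 1 ≤ N) (hNμ : ∑ l, |μ l| ≤ N) (hκ : 0 < κ₀) :
    ∃ C : ℝ, 0 < C ∧ ∀ (A ω : ℝ → Fin n → ℝ),
      (∀ τ ∈ Icc (0 : ℝ) (1 / 2), Good η c₁ M (A τ) (ω τ)) →
      (∀ τ ∈ Icc (0 : ℝ) (1 / 2), ∀ τ' ∈ Icc (0 : ℝ) (1 / 2),
        κ₀ * |τ - τ'| ≤ |∑ l, μ l * ω τ l ^ 2 - ∑ l, μ l * ω τ' l ^ 2|) →
      ∀ δ : ℝ, 0 < δ → N * (6 * M * δ) ≤ η ^ 2 / 2 → ∀ (i j : ℕ) (τ τ' : ℝ),
        τ ∈ Icc (0 : ℝ) (1 / 2) → τ' ∈ Icc (0 : ℝ) (1 / 2) → τ ∈ Ico (i * δ) ((i + 1) * δ) →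
        τ' ∈ Ico (j * δ) ((j + 1) * δ) → ∀ c₀ : ℝ, 0 < c₀ → c₀ ≤ 1 → ∃ T : Set ℝ, MeasurableSet T ∧
        (∀ s t : ℝ, (s, t) ∈ cp η μ (A τ) (ω τ) (A τ') (ω τ') (N * (6 * M * δ)) → s ∈ T) ∧
        volume {p : ℝ × ℝ | p.1 ∈ T ∧ p.2 ∈ T ∧ c₀ ≤ |p.1 - p.2|} ≤
          ENNReal.ofReal (C * (c₀⁻¹ ^ 4 * wt (nd i j))) := by
  have hM0 : 0 < M := by linarith
  have hN0 : 0 < N := by linarith
  obtain ⟨Cp, hCp, hpair⟩ := pair_far η (N * M ^ 2) hη0 hη1 (by positivity)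
  refine ⟨1 + Cp * (12 * N * M / κ₀) ^ ((4 : ℝ) / 3), by positivity, ?_⟩
  intro A ω hG hsep δ hδ hε i j τ τ' hτ hτ' hi hj c₀ hc₀ hc₁
  have hg := hG τ hτ
  have hg' := hG τ' hτ'
  have hM1 : M ≤ M ^ 2 := by nlinarith
  have hX : 0 < Cp * (12 * N * M / κ₀) ^ ((4 : ℝ) / 3) := by positivity
  rcases Nat.lt_or_ge (nd i j) 2 with h | h
  · -- neighbouring cells
    have hw : wt (nd i j) = 1 := by
      unfold wt
      have : ((nd i j : ℕ) : ℝ) ≤ 1 := by exact_mod_cast (by omega : nd i j ≤ 1)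
      rw [max_eq_right this, Real.one_rpow]
    rw [hw, mul_one]
    refine ⟨Icc 0 η, measurableSet_Icc, fun s t hst => hst.1, ?_⟩
    have h1 : volume {p : ℝ × ℝ | p.1 ∈ Icc 0 η ∧ p.2 ∈ Icc 0 η ∧ c₀ ≤ |p.1 - p.2|} ≤
        volume (Icc 0 η ×ˢ Icc 0 η) := measure_mono fun p hp => ⟨hp.1, hp.2.1⟩
    refine h1.trans ?_
    rw [Measure.volume_eq_prod, Measure.prod_prod, Real.volume_Icc, sub_zero,
      ← ENNReal.ofReal_mul hη0.le]
    apply ENNReal.ofReal_le_ofReal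
    have h2 : 1 ≤ c₀⁻¹ := (one_le_inv₀ hc₀).2 hc₁
    have h3 : 1 ≤ c₀⁻¹ ^ 4 := one_le_pow₀ h2
    calc η * η ≤ 1 * 1 := mul_le_mul hη1 hη1 hη0.le (by norm_num)
      _ ≤ (1 + Cp * (12 * N * M / κ₀) ^ ((4 : ℝ) / 3)) * c₀⁻¹ ^ 4 :=
        mul_le_mul (by linarith) h3 (by norm_num) (by linarith)
  have hsumb : ∀ (ν B : Fin n → ℝ) (c : ℝ), 0 ≤ c → ∑ l, |ν l| ≤ N → (∀ l, |B l| ≤ c) →
      |∑ l, ν l * B l| ≤ N * c := by
    intro ν B c hc0 h1 h2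
    calc |∑ l, ν l * B l| ≤ ∑ l, |ν l * B l| := Finset.abs_sum_le_sum_abs _ _
      _ ≤ ∑ l, |ν l| * c := Finset.sum_le_sum fun l _ => by
          rw [abs_mul]
          exact mul_le_mul_of_nonneg_left (h2 l) (abs_nonneg _)
      _ = (∑ l, |ν l|) * c := by rw [Finset.sum_mul]
      _ ≤ N * c := mul_le_mul_of_nonneg_right h1 hc0
  have hone : ∑ l : Fin n, |(fun _ => (1 : ℝ)) l| ≤ N := by simpa using hN1
  have hall : ∀ B ν : Fin n → ℝ, Good η c₁ M B ν → |∑ l, B l * ν l| ≤ N * M ^ 2 ∧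
      |∑ l, B l ^ 2| ≤ N * M ^ 2 ∧ |∑ l, μ l * ν l ^ 2| ≤ N * M ^ 2 ∧
      |∑ l, μ l * (B l * ν l)| ≤ N * M ^ 2 ∧ |∑ l, μ l * B l ^ 2| ≤ N * M ^ 2 := by
    intro B ν hB
    have b1 : ∀ l, |B l * ν l| ≤ M ^ 2 := fun l => by
      rw [abs_mul]
      calc |B l| * |ν l| ≤ M * 1 := mul_le_mul (hB.bd l) (hB.dir l) (abs_nonneg _) hM0.le
        _ ≤ M ^ 2 := by linarith
    have b2 : ∀ l, |B l ^ 2| ≤ M ^ 2 := fun l => by
      rw [abs_pow]
      exact pow_le_pow_left₀ (abs_nonneg _) (hB.bd l) 2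
    have b3 : ∀ l, |ν l ^ 2| ≤ M ^ 2 := fun l => by
      rw [abs_pow]
      exact pow_le_pow_left₀ (abs_nonneg _) ((hB.dir l).trans hM) 2
    have hc0 : 0 ≤ M ^ 2 := by positivity
    refine ⟨?_, ?_, hsumb μ _ _ hc0 hNμ b3, hsumb μ _ _ hc0 hNμ b1, hsumb μ _ _ hc0 hNμ b2⟩
    · have := hsumb (fun _ => 1) _ _ hc0 hone b1
      simpa using this
    · have := hsumb (fun _ => 1) _ _ hc0 hone b2
      simpa using this
  obtain ⟨p1, p2, p3, p4, p5⟩ := hall _ _ hg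
  obtain ⟨p1', p2', p3', p4', p5'⟩ := hall _ _ hg'
  set l : ℝ := ((nd i j : ℕ) : ℝ) with hl
  have hl2 : 2 ≤ l := by rw [hl]; exact_mod_cast h
  have hw : wt (nd i j) = l ^ (-(4 : ℝ) / 3) := by
    unfold wt
    rw [max_eq_left (by linarith)]
  have hdist : l * δ / 2 ≤ |τ - τ'| := by
    have hl' : l = |(i : ℝ) - j| := by
      rw [hl]
      unfold nd
      rcases le_total i j with hij | hij
      · have e : i - j = 0 := by omega
        rw [e, zero_add, Nat.cast_sub hij, abs_sub_comm, abs_of_nonneg]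
        have : (i : ℝ) ≤ j := by exact_mod_cast hij
        linarith
      · have e : j - i = 0 := by omega
        rw [e, add_zero, Nat.cast_sub hij, abs_of_nonneg]
        have : (j : ℝ) ≤ i := by exact_mod_cast hij
        linarith
    have h1 : (l - 1) * δ ≤ |τ - τ'| := by
      rw [hl']
      rcases le_total (i : ℝ) j with hij | hij
      · rw [abs_of_nonpos (by linarith)]
        refine le_trans ?_ (neg_le_abs _)
        have h1 := hi.2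
        have h2 := hj.1
        nlinarith
      · rw [abs_of_nonneg (by linarith)]
        refine le_trans ?_ (le_abs_self _)
        have h1 := hi.1
        have h2 := hj.2
        nlinarith
    nlinarith
  have hcc : κ₀ * (l * δ / 2) ≤ |∑ l, μ l * ω τ l ^ 2 - ∑ l, μ l * ω τ' l ^ 2| :=
    (mul_le_mul_of_nonneg_left hdist hκ.le).trans (hsep τ hτ τ' hτ')
  have hpos : 0 < κ₀ * (l * δ / 2) := by positivity
  have hne : ∑ l, μ l * ω τ l ^ 2 ≠ ∑ l, μ l * ω τ' l ^ 2 := by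
    intro heq
    rw [heq, sub_self, abs_zero] at hcc
    linarith
  obtain ⟨T, hTm, hT1, hT2⟩ := hpair _ _ _ _ _ _ _ _ _ _ p1 p2 p3 p4 p5 p1' p2' p3' p4' p5'
    (fun s hs => hg.mono s hs) (fun s hs => hg'.mono s hs) hne (N * (6 * M * δ)) (by positivity) hε
    c₀ hc₀ hc₁
  refine ⟨T, hTm, hT1, hT2.trans (ENNReal.ofReal_le_ofReal ?_)⟩
  have e1 : N * (6 * M * δ) / |∑ l, μ l * ω τ l ^ 2 - ∑ l, μ l * ω τ' l ^ 2| ≤
      (12 * N * M / κ₀) * l⁻¹ := by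
    calc _ ≤ N * (6 * M * δ) / (κ₀ * (l * δ / 2)) :=
          div_le_div_of_nonneg_left (by positivity) hpos hcc
      _ = _ := by
          field_simp
          ring
  have e2 : (N * (6 * M * δ) / |∑ l, μ l * ω τ l ^ 2 - ∑ l, μ l * ω τ' l ^ 2|) ^ ((4 : ℝ) / 3) ≤
      (12 * N * M / κ₀) ^ ((4 : ℝ) / 3) * wt (nd i j) := by
    refine (Real.rpow_le_rpow (by positivity) e1 (by norm_num)).trans (le_of_eq ?_)
    rw [Real.mul_rpow (by positivity) (by positivity), hw]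
    congr 1
    rw [Real.inv_rpow (by positivity), ← Real.rpow_neg (by positivity)]
    congr 1
    ring
  calc Cp * (c₀⁻¹ ^ 4 * (N * (6 * M * δ) /
        |∑ l, μ l * ω τ l ^ 2 - ∑ l, μ l * ω τ' l ^ 2|) ^ ((4 : ℝ) / 3))
      ≤ Cp * (c₀⁻¹ ^ 4 * ((12 * N * M / κ₀) ^ ((4 : ℝ) / 3) * wt (nd i j))) := by gcongr
    _ = Cp * (12 * N * M / κ₀) ^ ((4 : ℝ) / 3) * (c₀⁻¹ ^ 4 * wt (nd i j)) := by ring
    _ ≤ _ := by
        have h1 : 0 ≤ c₀⁻¹ ^ 4 * wt (nd i j) := by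
          have := wt_nonneg (nd i j)
          positivity
        nlinarith

/-- The near pairs of points of the domain. -/
theorem near_le {m : ℕ} {η ρ c₀ : ℝ} (hη : 0 ≤ η) (hρ : 0 ≤ ρ) (hc : 0 ≤ c₀) :
    ((volume.restrict (dom m η ρ)).prod (volume.restrict (dom m η ρ))) (farSet m c₀)ᶜ ≤
      ENNReal.ofReal (2 * c₀ * (2 * ρ) ^ m * (η * (2 * ρ) ^ m)) := by
  rw [Measure.prod_apply (farSet_meas m c₀).compl]
  have h1 : ∀ z : ℝ × (Fin m → ℝ), (volume.restrict (dom m η ρ)) (Prod.mk z ⁻¹' (farSet m c₀)ᶜ) ≤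
      ENNReal.ofReal (2 * c₀ * (2 * ρ) ^ m) := by
    intro z
    have e : Prod.mk z ⁻¹' (farSet m c₀)ᶜ ⊆ Ioo (z.1 - c₀) (z.1 + c₀) ×ˢ (univ : Set (Fin m → ℝ)) := by
      intro z' hz'
      simp only [farSet, mem_preimage, mem_compl_iff, mem_ofPred_eq, not_le] at hz'
      have h2 := abs_lt.1 hz'
      exact ⟨⟨by linarith [h2.2], by linarith [h2.1]⟩, mem_univ _⟩
    refine (measure_mono e).trans ?_
    unfold dom
    rw [Measure.volume_eq_prod ℝ (Fin m → ℝ), ← Measure.prod_restrict, Measure.prod_prod,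
      Measure.restrict_apply_univ, Real.volume_pi_closedBall _ hρ, Fintype.card_fin]
    refine (mul_le_mul' (Measure.restrict_apply_le _ _) le_rfl).trans (le_of_eq ?_)
    rw [Real.volume_Ioo, ← ENNReal.ofReal_mul (by linarith)]
    congr 1
    ring
  refine (lintegral_mono h1).trans ?_
  rw [lintegral_const, Measure.restrict_apply_univ, vol_dom m η ρ hη hρ,
    ← ENNReal.ofReal_mul (by positivity)]


theorem dim_of_family {n m : ℕ} (K : Set (EuclideanSpace ℝ (Fin n))) {η c₁ M ρ N κ₀ : ℝ}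
    (μ : Fin n → ℝ) (V : (Fin m → ℝ) →ₗ[ℝ] (Fin n → ℝ)) (hη0 : 0 < η) (hη : η ≤ 1) (hM : 1 ≤ M)
    (hc : 0 < c₁) (hρ0 : 0 < ρ)
    (hρ : ∀ y ∈ Metric.closedBall (0 : Fin m → ℝ) ρ, ∀ l, |V y l| ≤ c₁ ^ 2 / 2 ∧ |V y l| ≤ 1)
    (hV1 : ∀ y, ∑ l, V y l = 0) (hVμ : ∀ y, ∑ l, μ l * V y l = 0) (Kc : ℝ≥0)
    (hK : AntilipschitzWith Kc V) (hN1 : (n : ℝ) ≤ N) (hNp : 1 ≤ N) (hNμ : ∑ l, |μ l| ≤ N)
    (hκ : 0 < κ₀) (A ω : ℝ → Fin n → ℝ)
    (hG : ∀ τ ∈ Icc (0 : ℝ) (1 / 2), Good η c₁ M (A τ) (ω τ))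
    (hsep : ∀ τ ∈ Icc (0 : ℝ) (1 / 2), ∀ τ' ∈ Icc (0 : ℝ) (1 / 2),
      κ₀ * |τ - τ'| ≤ |∑ l, μ l * ω τ l ^ 2 - ∑ l, μ l * ω τ' l ^ 2|)
    (hmem : ∀ τ ∈ Icc (0 : ℝ) (1 / 2), ∀ z ∈ dom m η ρ, pt (A τ) (ω τ) V z ∈ K) :
    ENNReal.ofReal (m + 3 / 2) ≤ dimH K := by
  classical
  by_contra hcon
  push Not at hcon
  obtain ⟨α, hα1, hα2⟩ := ENNReal.lt_iff_exists_nnreal_btwn.1 hcon
  have hαlt : (α : ℝ) < m + 3 / 2 := by
    have h1 : ((α : ℝ≥0∞)) = ENNReal.ofReal (α : ℝ) := by simp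
    rw [h1] at hα2
    exact (ENNReal.ofReal_lt_ofReal_iff (by positivity)).1 hα2
  obtain ⟨g, hg⟩ : ∃ g : ℝ, g = m + 3 / 2 - α := ⟨_, rfl⟩
  have hg0 : 0 < g := by linarith
  obtain ⟨C6, hC6, hgrid⟩ := pair_grid (c₁ := c₁) μ hη0 hη hM hN1 hNp hNμ hκ
  have hM0 : 0 < M := by linarith
  have hN0 : 0 < N := by linarith
  -- the rates
  obtain ⟨r, hr⟩ : ∃ r : ℝ, r = (2 : ℝ) ^ (-(g / 13)) := ⟨_, rfl⟩
  have hr0 : 0 < r := by rw [hr]; positivity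
  have hr1 : r < 1 := by
    rw [hr]
    exact Real.rpow_lt_one_of_one_lt_of_neg (by norm_num) (by linarith)
  obtain ⟨x0, hx0⟩ : ∃ x0 : ℝ, x0 = η * (2 * ρ) ^ m := ⟨_, rfl⟩
  have hx0p : 0 < x0 := by rw [hx0]; positivity
  obtain ⟨c1, hc1⟩ : ∃ c1 : ℝ, c1 = x0 * (1 - r) / 2 := ⟨_, rfl⟩
  have h1r : 0 < 1 - r := by linarith
  have hc1p : 0 < c1 := by rw [hc1]; positivity
  obtain ⟨c2, hc2⟩ : ∃ c2 : ℝ, c2 = 1 / 2 * (1 - r) / 2 := ⟨_, rfl⟩
  have hc2p : 0 < c2 := by rw [hc2]; positivity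
  have hKc : (0 : ℝ) ≤ Kc := Kc.2
  obtain ⟨C8, hC8⟩ : ∃ C8 : ℝ, C8 = ((4 * Kc * (6 * M)) ^ m * (12 * N * M / η)) ^ 2 *
      ((2 * ρ) ^ m * ((2 * ρ) ^ m * C6)) := ⟨_, rfl⟩
  have hC8n : 0 ≤ C8 := by rw [hC8]; positivity
  obtain ⟨W, hW⟩ : ∃ W : ℝ, W = 2 * ∑' l, wt l := ⟨_, rfl⟩
  have hWn : 0 ≤ W := by
    rw [hW]
    have : (0 : ℝ) ≤ ∑' l, wt l := tsum_nonneg wt_nonneg
    positivity
  obtain ⟨C9, hC9⟩ : ∃ C9 : ℝ, C9 = C8 * (4 * x0 ^ 2 / (η * c1 ^ 2)) ^ 4 * W := ⟨_, rfl⟩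
  have hC9n : 0 ≤ C9 := by rw [hC9]; positivity
  -- the first scale
  obtain ⟨k1, hk1⟩ : ∃ k : ℕ, C9 * (2 : ℝ) ^ (2 * (α : ℝ)) / (c2 * c1 ^ 4 / 4) <
      ((2 : ℝ) ^ g) ^ k :=
    pow_unbounded_of_one_lt _ (Real.one_lt_rpow (by norm_num) hg0)
  obtain ⟨k2, hk2⟩ : ∃ k : ℕ, ((1 : ℝ) / 2) ^ k < η ^ 2 / (12 * N * M) :=
    exists_pow_lt_of_lt_one (by positivity) (by norm_num)
  obtain ⟨t, κ, ht1, ht2, ht3, ht4⟩ := Pool.Agent.W605.HD.cover K α hα1 (max k1 k2)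
  -- pigeonhole
  set lam : Measure (ℝ × (Fin m → ℝ)) := volume.restrict (dom m η ρ) with hlam
  have hlamfin : IsFiniteMeasure lam := by
    refine ⟨?_⟩
    rw [hlam, Measure.restrict_apply_univ, vol_dom m η ρ hη0.le hρ0.le]
    exact ENNReal.ofReal_lt_top
  set P : ℝ → ℕ → Prop := fun τ k => ENNReal.ofReal (c1 * r ^ k) ≤
    lam (pt (A τ) (ω τ) V ⁻¹' ⋃ (i : ℕ) (_ : κ i = k), closure (t i)) with hP
  have hPex : ∀ τ ∈ Icc (0 : ℝ) (1 / 2), ∃ k, P τ k := by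
    intro τ hτ
    have h := Pool.Agent.W605.HD.pigeon lam (dom m η ρ)
      (fun k => pt (A τ) (ω τ) V ⁻¹' ⋃ (i : ℕ) (_ : κ i = k), closure (t i)) (by
        intro z hz
        have h1 := ht1 (hmem τ hτ z hz)
        obtain ⟨i, hi⟩ := mem_iUnion.1 h1
        refine mem_iUnion.2 ⟨κ i, ?_⟩
        exact mem_iUnion₂.2 ⟨i, rfl, subset_closure hi⟩) x0 r hx0p hr0 hr1 (by
        rw [hlam, Measure.restrict_apply_self, vol_dom m η ρ hη0.le hρ0.le, hx0])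
    rw [← hc1] at h
    exact h
  obtain ⟨k, hk⟩ := Pool.Agent.W605.HD.pigeon (volume : Measure ℝ) (Icc (0 : ℝ) (1 / 2))
    (fun k => {τ | τ ∈ Icc (0 : ℝ) (1 / 2) ∧ P τ k}) (by
      intro τ hτ
      obtain ⟨k, hk⟩ := hPex τ hτ
      exact mem_iUnion.2 ⟨k, hτ, hk⟩) (1 / 2) r (by norm_num) hr0 hr1 (by
      rw [Real.volume_Icc]
      norm_num)
  rw [← hc2] at hk
  -- the scale and the grid
  set L : ℕ := 2 ^ k with hL
  have hLr : (L : ℝ) = (2 : ℝ) ^ k := by rw [hL]; push_cast; rfl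
  have hLp : (0 : ℝ) < L := by rw [hLr]; positivity
  set δ : ℝ := (1 / 2 : ℝ) ^ k with hδ
  have hδ0 : 0 < δ := by positivity
  have hδL : δ * L = 1 := by
    rw [hδ, hLr, ← mul_pow]
    norm_num
  set I : Finset ℕ := (Finset.range L).filter (fun i => ∃ τ : ℝ, (τ ∈ Icc (0 : ℝ) (1 / 2) ∧ P τ k) ∧
    τ ∈ Ico (i * δ) ((i + 1) * δ)) with hI
  have hcard : c2 * r ^ k ≤ I.card * δ := by
    have h1 : {τ : ℝ | τ ∈ Icc (0 : ℝ) (1 / 2) ∧ P τ k} ⊆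
        ⋃ i ∈ I, Ico ((i : ℝ) * δ) ((i + 1) * δ) := by
      intro τ hτ
      have hτ0 : 0 ≤ τ := hτ.1.1
      have h3 : 0 ≤ τ / δ := div_nonneg hτ0 hδ0.le
      have h2 : τ ∈ Ico ((⌊τ / δ⌋₊ : ℝ) * δ) ((⌊τ / δ⌋₊ + 1) * δ) := by
        constructor
        · rw [← le_div_iff₀ hδ0]
          exact Nat.floor_le h3
        · rw [← div_lt_iff₀ hδ0]
          exact Nat.lt_floor_add_one _
      refine mem_iUnion₂.2 ⟨⌊τ / δ⌋₊, ?_, h2⟩
      rw [hI, Finset.mem_filter, Finset.mem_range]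
      refine ⟨?_, τ, hτ, h2⟩
      rw [Nat.floor_lt h3, div_lt_iff₀ hδ0, mul_comm, hδL]
      linarith [hτ.1.2]
    have h2 : ENNReal.ofReal (c2 * r ^ k) ≤ ENNReal.ofReal (I.card * δ) := by
      refine hk.trans ((measure_mono h1).trans ((measure_biUnion_finset_le _ _).trans
        (le_of_eq ?_)))
      have : ∀ i ∈ I, volume (Ico ((i : ℝ) * δ) ((i + 1) * δ)) = ENNReal.ofReal δ := by
        intro i _
        rw [Real.volume_Ico]
        congr 1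
        ring
      rw [Finset.sum_congr rfl this, Finset.sum_const, nsmul_eq_mul,
        ENNReal.ofReal_mul (Nat.cast_nonneg _), ENNReal.ofReal_natCast]
    exact (ENNReal.ofReal_le_ofReal_iff (by positivity)).1 h2
  have hIpos : (0 : ℝ) < I.card := by
    by_contra hc0
    push Not at hc0
    have h0 : (I.card : ℝ) = 0 := le_antisymm hc0 (Nat.cast_nonneg _)
    rw [h0, zero_mul] at hcard
    have : 0 < c2 * r ^ k := by positivity
    linarith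
  have hIne : I.Nonempty := by
    rw [← Finset.card_pos]
    exact_mod_cast hIpos
  have hch : ∀ i : ℕ, ∃ τ : ℝ, i ∈ I → (τ ∈ Icc (0 : ℝ) (1 / 2) ∧ P τ k) ∧
      τ ∈ Ico (i * δ) ((i + 1) * δ) := by
    intro i
    by_cases hi : i ∈ I
    · rw [hI, Finset.mem_filter] at hi
      obtain ⟨τ, hτ⟩ := hi.2
      exact ⟨τ, fun _ => hτ⟩
    · exact ⟨0, fun h => absurd h hi⟩
  choose τ hτ using hch
  -- the finite set of indices
  have hSfin : {i : ℕ | κ i = k}.Finite := by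
    by_contra hinf
    obtain ⟨m', hm'⟩ := exists_nat_gt ((2 : ℝ) ^ ((α : ℝ) * (k + 1)))
    obtain ⟨s, hs1, hs2⟩ := (show {i : ℕ | κ i = k}.Infinite from hinf).exists_subset_card_eq m'
    have h1 := ht4 k s (fun i hi => hs1 hi)
    rw [hs2] at h1
    linarith
  set S : Finset ℕ := hSfin.toFinset with hS
  have hSmem : ∀ i, i ∈ S ↔ κ i = k := fun i => by
    rw [hS, Set.Finite.mem_toFinset]
    rfl
  have hScard : (S.card : ℝ) ≤ (2 : ℝ) ^ ((α : ℝ) * (k + 1)) := ht4 k S fun i hi => (hSmem i).1 hi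
  have hUeq : (⋃ (i : ℕ) (_ : κ i = k), closure (t i)) = ⋃ a ∈ S, closure (t a) := by
    ext y
    simp only [mem_iUnion, hSmem]
  have hkk : max k1 k2 ≤ k := by
    obtain ⟨i, hi⟩ := hIne
    have h1 := (hτ i hi).1.2
    have h2 : (⋃ (i : ℕ) (_ : κ i = k), closure (t i)).Nonempty := by
      rw [nonempty_iff_ne_empty]
      intro hempty
      rw [hP] at h1
      simp only [hempty, preimage_empty, measure_empty, nonpos_iff_eq_zero,
        ENNReal.ofReal_eq_zero] at h1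
      have : 0 < c1 * r ^ k := by positivity
      linarith
    obtain ⟨y, hy⟩ := h2
    obtain ⟨j, hj, -⟩ := mem_iUnion₂.1 hy
    rw [← hj]
    exact ht2 j
  have hεk : N * (6 * M * δ) ≤ η ^ 2 / 2 := by
    have h1 : δ < η ^ 2 / (12 * N * M) := by
      refine lt_of_le_of_lt ?_ hk2
      exact pow_le_pow_of_le_one (by norm_num) (by norm_num) ((le_max_right _ _).trans hkk)
    rw [lt_div_iff₀ (by positivity)] at h1
    linarith
  -- the near pairs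
  obtain ⟨c₀, hc₀⟩ : ∃ c₀ : ℝ, c₀ = η * (c1 * r ^ k) ^ 2 / (4 * x0 ^ 2) := ⟨_, rfl⟩
  have hrk0 : 0 < r ^ k := by positivity
  have hrk1 : r ^ k ≤ 1 := pow_le_one₀ hr0.le hr1.le
  have hc₀p : 0 < c₀ := by rw [hc₀]; positivity
  have hxx : c1 * r ^ k ≤ x0 := by
    calc c1 * r ^ k ≤ c1 * 1 := mul_le_mul_of_nonneg_left hrk1 hc1p.le
      _ ≤ x0 := by rw [hc1]; nlinarith
  have hc₀1 : c₀ ≤ 1 := by
    rw [hc₀, div_le_one (by positivity)]
    have h1 : (c1 * r ^ k) ^ 2 ≤ x0 ^ 2 := pow_le_pow_left₀ (by positivity) hxx 2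
    have h2 : 0 ≤ (c1 * r ^ k) ^ 2 := by positivity
    nlinarith
  have hnear : (lam.prod lam) (farSet m c₀)ᶜ ≤ ENNReal.ofReal ((c1 * r ^ k) ^ 2 / 2) := by
    refine (near_le hη0.le hρ0.le hc₀p.le).trans (ENNReal.ofReal_le_ofReal (le_of_eq ?_))
    have hρm : 0 < (2 * ρ) ^ m := by positivity
    rw [hc₀, hx0]
    field_simp
    ring
  -- the counting inequality
  set F : ℝ := I.card * (C8 * c₀⁻¹ ^ 4 * δ ^ (2 * m + 2) * W) with hF
  have hF0 : 0 ≤ F := by positivity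
  have hcount := counting2 lam I (fun i => pt (A (τ i)) (ω (τ i)) V)
    (fun i _ => measurable_pt _ _ _) S (fun a => closure (t a))
    (fun a => isClosed_closure.measurableSet) δ (c1 * r ^ k) F (farSet m c₀) (farSet_meas m c₀)
    (by positivity) hF0
    (fun a ha => by
      have h1 := closure_dist (ht3 a)
      rw [(hSmem a).1 ha] at h1
      exact h1)
    (fun i hi => by
      have h1 := (hτ i hi).1.2
      rw [hP] at h1
      simp only [hUeq] at h1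
      exact h1)
    hnear
    (by
      have hpairs : ∀ i ∈ I, ∀ j ∈ I, ∫⁻ p in farSet m c₀,
          lam {z' | dist (pt (A (τ i)) (ω (τ i)) V p.1) (pt (A (τ j)) (ω (τ j)) V z') ≤ δ} *
          lam {z' | dist (pt (A (τ i)) (ω (τ i)) V p.2) (pt (A (τ j)) (ω (τ j)) V z') ≤ δ}
          ∂(lam.prod lam) ≤
          ENNReal.ofReal (C8 * c₀⁻¹ ^ 4 * δ ^ (2 * m + 2) * wt (nd i j)) := by
        intro i hi j hj
        obtain ⟨T, hTm, hT1, hT2⟩ := hgrid A ω hG hsep δ hδ0 hεk i j (τ i) (τ j) (hτ i hi).1.1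
          (hτ j hj).1.1 (hτ i hi).2 (hτ j hj).2 c₀ hc₀p hc₀1
        have h1 := energy2 (c₀ := c₀) hη0 hη hM hc hρ0.le hρ (hG _ (hτ i hi).1.1)
          (hG _ (hτ j hj).1.1) hV1 hVμ Kc hK hδ0.le hN1 hNμ T hTm hT1
        refine h1.trans ?_
        calc (ENNReal.ofReal ((4 * Kc * (6 * M * δ)) ^ m) *
              ENNReal.ofReal (2 * (N * (6 * M * δ) / η))) ^ 2 *
              (ENNReal.ofReal ((2 * ρ) ^ m) * (ENNReal.ofReal ((2 * ρ) ^ m) *
              volume {p : ℝ × ℝ | p.1 ∈ T ∧ p.2 ∈ T ∧ c₀ ≤ |p.1 - p.2|}))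
            ≤ (ENNReal.ofReal ((4 * Kc * (6 * M * δ)) ^ m) *
              ENNReal.ofReal (2 * (N * (6 * M * δ) / η))) ^ 2 *
              (ENNReal.ofReal ((2 * ρ) ^ m) * (ENNReal.ofReal ((2 * ρ) ^ m) *
              ENNReal.ofReal (C6 * (c₀⁻¹ ^ 4 * wt (nd i j))))) := by gcongr
          _ = ENNReal.ofReal (C8 * c₀⁻¹ ^ 4 * δ ^ (2 * m + 2) * wt (nd i j)) := by
              rw [← ENNReal.ofReal_mul (by positivity), ← ENNReal.ofReal_pow (by positivity),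
                ← ENNReal.ofReal_mul (by positivity), ← ENNReal.ofReal_mul (by positivity),
                ← ENNReal.ofReal_mul (by positivity)]
              congr 1
              rw [hC8]
              have e : (4 * (Kc : ℝ) * (6 * M * δ)) ^ m = (4 * Kc * (6 * M)) ^ m * δ ^ m := by
                rw [← mul_pow]
                congr 1
                ring
              have e' : 2 * (N * (6 * M * δ) / η) = 12 * N * M / η * δ := by ring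
              have e'' : ∀ d : ℝ, d ^ (2 * m + 2) = (d ^ m * d) ^ 2 := fun d => by ring
              rw [e, e', e'' δ]
              ring
      calc ∑ i ∈ I, ∑ j ∈ I, ∫⁻ p in farSet m c₀,
          lam {z' | dist (pt (A (τ i)) (ω (τ i)) V p.1) (pt (A (τ j)) (ω (τ j)) V z') ≤ δ} *
          lam {z' | dist (pt (A (τ i)) (ω (τ i)) V p.2) (pt (A (τ j)) (ω (τ j)) V z') ≤ δ}
          ∂(lam.prod lam)
          ≤ ∑ i ∈ I, ∑ j ∈ I, ENNReal.ofReal (C8 * c₀⁻¹ ^ 4 * δ ^ (2 * m + 2) * wt (nd i j)) :=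
            Finset.sum_le_sum fun i hi => Finset.sum_le_sum fun j hj => hpairs i hi j hj
        _ = ENNReal.ofReal (∑ i ∈ I, ∑ j ∈ I, C8 * c₀⁻¹ ^ 4 * δ ^ (2 * m + 2) * wt (nd i j)) := by
            rw [ENNReal.ofReal_sum_of_nonneg (fun i _ => Finset.sum_nonneg fun j _ => by
              have := wt_nonneg (nd i j)
              positivity)]
            refine Finset.sum_congr rfl fun i _ => ?_
            rw [ENNReal.ofReal_sum_of_nonneg (fun j _ => by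
              have := wt_nonneg (nd i j)
              positivity)]
        _ ≤ ENNReal.ofReal F := by
            apply ENNReal.ofReal_le_ofReal
            have h4 : ∀ i ∈ I, ∑ j ∈ I, C8 * c₀⁻¹ ^ 4 * δ ^ (2 * m + 2) * wt (nd i j) ≤
                C8 * c₀⁻¹ ^ 4 * δ ^ (2 * m + 2) * W := by
              intro i hi
              rw [← Finset.mul_sum]
              refine mul_le_mul_of_nonneg_left ?_ (by positivity)
              have hiL : i < L := by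
                rw [hI, Finset.mem_filter, Finset.mem_range] at hi
                exact hi.1
              rw [hW]
              refine le_trans ?_ (sum_wt_nd L i hiL)
              refine Finset.sum_le_sum_of_subset_of_nonneg ?_ fun j _ _ => wt_nonneg _
              rw [hI]
              exact Finset.filter_subset _ _
            calc ∑ i ∈ I, ∑ j ∈ I, C8 * c₀⁻¹ ^ 4 * δ ^ (2 * m + 2) * wt (nd i j)
                ≤ ∑ _i ∈ I, C8 * c₀⁻¹ ^ 4 * δ ^ (2 * m + 2) * W :=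
                  Finset.sum_le_sum h4
              _ = F := by rw [Finset.sum_const, nsmul_eq_mul, hF])
  -- the contradiction
  have h1 : (I.card : ℝ) * ((c1 * r ^ k) ^ 4 / 4) ≤
      (S.card : ℝ) ^ 2 * (C8 * c₀⁻¹ ^ 4 * δ ^ (2 * m + 2) * W) := by
    have h2 : (I.card : ℝ) * ((I.card : ℝ) * ((c1 * r ^ k) ^ 4 / 4)) ≤
        (I.card : ℝ) * ((S.card : ℝ) ^ 2 * (C8 * c₀⁻¹ ^ 4 * δ ^ (2 * m + 2) * W)) := by
      calc _ = ((I.card : ℝ) * ((c1 * r ^ k) ^ 2 / 2)) ^ 2 := by ring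
        _ ≤ (S.card : ℝ) ^ 2 * F := hcount
        _ = _ := by rw [hF]; ring
    exact le_of_mul_le_mul_left h2 hIpos
  have h2 : c2 * r ^ k * L ≤ I.card := by
    calc c2 * r ^ k * L ≤ I.card * δ * L := mul_le_mul_of_nonneg_right hcard hLp.le
      _ = I.card := by rw [mul_assoc, hδL, mul_one]
  have hc₀i : c₀⁻¹ ^ 4 * (r ^ k) ^ 8 = (4 * x0 ^ 2 / (η * c1 ^ 2)) ^ 4 := by
    rw [hc₀]
    field_simp
  have h3 : c2 * r ^ k * L * ((c1 * r ^ k) ^ 4 / 4) ≤ ((2 : ℝ) ^ ((α : ℝ) * (k + 1))) ^ 2 *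
      (C8 * c₀⁻¹ ^ 4 * δ ^ (2 * m + 2) * W) :=
    (mul_le_mul_of_nonneg_right h2 (by positivity)).trans (h1.trans
      (mul_le_mul_of_nonneg_right (pow_le_pow_left₀ (Nat.cast_nonneg _) hScard 2)
        (by positivity)))
  have h3' : c2 * c1 ^ 4 / 4 * ((r ^ k) ^ 13 * L) ≤ C9 * (((2 : ℝ) ^ ((α : ℝ) * (k + 1))) ^ 2 *
      δ ^ (2 * m + 2)) := by
    have h := mul_le_mul_of_nonneg_right h3 (by positivity : (0 : ℝ) ≤ (r ^ k) ^ 8)
    calc c2 * c1 ^ 4 / 4 * ((r ^ k) ^ 13 * L) = c2 * r ^ k * L * ((c1 * r ^ k) ^ 4 / 4) *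
          (r ^ k) ^ 8 := by ring
      _ ≤ ((2 : ℝ) ^ ((α : ℝ) * (k + 1))) ^ 2 * (C8 * c₀⁻¹ ^ 4 * δ ^ (2 * m + 2) * W) *
          (r ^ k) ^ 8 := h
      _ = ((2 : ℝ) ^ ((α : ℝ) * (k + 1))) ^ 2 * (C8 * (c₀⁻¹ ^ 4 * (r ^ k) ^ 8) *
          δ ^ (2 * m + 2) * W) := by ring
      _ = _ := by rw [hc₀i, hC9]; ring
  -- powers of two
  have two : (0 : ℝ) < 2 := by norm_num
  have eL : (L : ℝ) = (2 : ℝ) ^ (k : ℝ) := by rw [hLr, Real.rpow_natCast]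
  have eδ : δ ^ (2 * m + 2) = (2 : ℝ) ^ (-(k : ℝ) * (2 * m + 2)) := by
    have e1 : δ = (2 : ℝ) ^ (-(k : ℝ)) := by
      rw [Real.rpow_neg two.le, Real.rpow_natCast, hδ, one_div, inv_pow]
    rw [e1, ← Real.rpow_natCast, ← Real.rpow_mul two.le]
    push_cast
    ring_nf
  have er : (r ^ k) ^ 13 = (2 : ℝ) ^ (-(g * k)) := by
    rw [hr, ← pow_mul, ← Real.rpow_natCast, ← Real.rpow_mul two.le]
    push_cast
    ring_nf
  have eS : ((2 : ℝ) ^ ((α : ℝ) * (k + 1))) ^ 2 = (2 : ℝ) ^ (2 * (α : ℝ) * (k + 1)) := by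
    rw [← Real.rpow_natCast, ← Real.rpow_mul two.le]
    push_cast
    ring_nf
  rw [er, eL, eδ, eS, ← Real.rpow_add two, ← Real.rpow_add two] at h3'
  have h5 : c2 * c1 ^ 4 / 4 * ((2 : ℝ) ^ g) ^ k ≤ C9 * (2 : ℝ) ^ (2 * (α : ℝ)) := by
    have e1 : ((2 : ℝ) ^ g) ^ k = (2 : ℝ) ^ (-(g * k) + k) *
        (2 : ℝ) ^ (-(2 * (α : ℝ) * k + -(k : ℝ) * (2 * m + 2))) := by
      rw [← Real.rpow_add two, ← Real.rpow_natCast, ← Real.rpow_mul two.le]
      congr 1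
      rw [hg]
      ring
    have e2 : (2 : ℝ) ^ (2 * (α : ℝ)) = (2 : ℝ) ^ (2 * (α : ℝ) * (k + 1) + -(k : ℝ) * (2 * m + 2)) *
        (2 : ℝ) ^ (-(2 * (α : ℝ) * k + -(k : ℝ) * (2 * m + 2))) := by
      rw [← Real.rpow_add two]
      congr 1
      ring
    rw [e1, e2, ← mul_assoc, ← mul_assoc]
    exact mul_le_mul_of_nonneg_right h3' (by positivity)
  have h6 : ((2 : ℝ) ^ g) ^ k1 ≤ ((2 : ℝ) ^ g) ^ k :=
    pow_le_pow_right₀ (Real.one_le_rpow (by norm_num) hg0.le)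
      ((le_max_left _ _).trans hkk)
  have h7 := lt_of_lt_of_le hk1 h6
  rw [div_lt_iff₀ (by positivity)] at h7
  linarith

end Pool.Agent.Y322.KS
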