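import Pool.Agent.Y322.KS.Main

/-!
# Kakeya sets that are unions of joint level sets: coordinate free forms
-/

set_option autoImplicit false

open Set MeasureTheory
open scoped ENNReal NNReal RealInnerProductSpace

namespace Pool.Agent.Y322.KS

theorem main_basis {n k : ℕ} (b : OrthonormalBasis (Fin n) ℝ (EuclideanSpace ℝ (Fin n)))
    (q : Fin k → Fin n → ℝ) (hq : ∃ i u v, q i u ≠ q i v) (K : Set (EuclideanSpace ℝ (Fin n)))
    (hKb : Bornology.IsBounded K)
    (hK : ∀ e : EuclideanSpace ℝ (Fin n), ‖e‖ = 1 → ∃ x, ∀ t ∈ Icc (0 : ℝ) 1, x + t • e ∈ K)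
    (hsat : ∀ x ∈ K, ∀ y : EuclideanSpace ℝ (Fin n), ‖y‖ = ‖x‖ →
      (∀ i, ∑ l, q i l * ⟪b l, y⟫ ^ 2 = ∑ l, q i l * ⟪b l, x⟫ ^ 2) → y ∈ K) :
    ENNReal.ofReal ((n : ℝ) - k + 1 / 2) ≤ dimH K := by
  obtain ⟨i₀, u, v, huv⟩ := hq
  have hdim : dimH (b.repr '' K) = dimH K := b.repr.isometry.dimH_image K
  rw [← hdim]
  refine main_coords q i₀ u v huv _ ?_ ?_ ?_
  · exact b.repr.lipschitz.isBounded_image hKb
  · intro e he
    obtain ⟨x, hx⟩ := hK (b.repr.symm e) (by rw [LinearIsometryEquiv.norm_map, he])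
    refine ⟨b.repr x, fun t ht => ⟨x + t • b.repr.symm e, hx t ht, ?_⟩⟩
    rw [map_add, map_smul, LinearIsometryEquiv.apply_symm_apply]
  · rintro _ ⟨x, hx, rfl⟩ y h1 h2
    refine ⟨b.repr.symm y, hsat x hx _ ?_ ?_, LinearIsometryEquiv.apply_symm_apply _ _⟩
    · rw [LinearIsometryEquiv.norm_map, ← b.repr.norm_map x, EuclideanSpace.norm_eq,
        EuclideanSpace.norm_eq]
      simp only [Real.norm_eq_abs, sq_abs]
      rw [h1]
    · intro i
      have h3 := h2 i
      have e1 : ∀ l, ⟪b l, b.repr.symm y⟫ = y l := by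
        intro l
        rw [← b.repr_apply_apply, LinearIsometryEquiv.apply_symm_apply]
      simp only [e1]
      simp only [b.repr_apply_apply] at h3
      exact h3

/-- One quadratic form. -/
theorem main_form {n : ℕ} (T : EuclideanSpace ℝ (Fin n) →ₗ[ℝ] EuclideanSpace ℝ (Fin n))
    (hT : T.IsSymmetric) (hne : ¬ ∃ c : ℝ, ∀ x, T x = c • x) (K : Set (EuclideanSpace ℝ (Fin n)))
    (hKb : Bornology.IsBounded K)
    (hK : ∀ e : EuclideanSpace ℝ (Fin n), ‖e‖ = 1 → ∃ x, ∀ t ∈ Icc (0 : ℝ) 1, x + t • e ∈ K)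
    (hsat : ∀ x ∈ K, ∀ y : EuclideanSpace ℝ (Fin n), ‖y‖ = ‖x‖ → ⟪T y, y⟫ = ⟪T x, x⟫ → y ∈ K) :
    ENNReal.ofReal ((n : ℝ) - 1 / 2) ≤ dimH K := by
  have hfin : Module.finrank ℝ (EuclideanSpace ℝ (Fin n)) = n := finrank_euclideanSpace_fin
  set b := hT.eigenvectorBasis hfin with hb
  set ev : Fin n → ℝ := hT.eigenvalues hfin with hev
  have hTb : ∀ l, T (b l) = ev l • b l := fun l => hT.apply_eigenvectorBasis hfin l
  have hexp : ∀ x, T x = ∑ l, (ev l * ⟪b l, x⟫) • b l := by
    intro x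
    conv_lhs => rw [← b.sum_repr x]
    rw [map_sum]
    refine Finset.sum_congr rfl fun l _ => ?_
    rw [map_smul, hTb, smul_smul, b.repr_apply_apply, mul_comm]
  have hquad : ∀ x, ⟪T x, x⟫ = ∑ l, ev l * ⟪b l, x⟫ ^ 2 := by
    intro x
    rw [hexp x, sum_inner]
    refine Finset.sum_congr rfl fun l _ => ?_
    rw [inner_smul_left]
    simp
    ring
  have hex : ∃ (i : Fin 1) (u v : Fin n), (fun (_ : Fin 1) => ev) i u ≠ (fun (_ : Fin 1) => ev) i v := by
    by_contra hcon
    push Not at hcon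
    apply hne
    rcases Nat.eq_zero_or_pos n with hn | hn
    · subst hn
      exact ⟨0, fun x => Subsingleton.elim _ _⟩
    · refine ⟨ev ⟨0, hn⟩, fun x => ?_⟩
      rw [hexp x]
      conv_rhs => rw [← b.sum_repr x]
      rw [Finset.smul_sum]
      refine Finset.sum_congr rfl fun l _ => ?_
      rw [smul_smul, b.repr_apply_apply, hcon 0 l ⟨0, hn⟩]
  have h := main_basis b (fun (_ : Fin 1) => ev) hex K hKb hK (fun x hx y h1 h2 => hsat x hx y h1 (by
    rw [hquad, hquad]
    exact h2 0))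
  refine le_trans (ENNReal.ofReal_le_ofReal ?_) h
  push_cast
  linarith

/-- The square of the norm of the block number `i`. -/
def blk {n r : ℕ} (c : Fin n → Fin r) (i : Fin r) (x : EuclideanSpace ℝ (Fin n)) : ℝ :=
  ∑ l with c l = i, x l ^ 2

/-- The linear isometries which preserve all the blocks (the product of the orthogonal groups of
the blocks). -/
def BlockIso {n r : ℕ} (c : Fin n → Fin r)
    (g : EuclideanSpace ℝ (Fin n) ≃ₗᵢ[ℝ] EuclideanSpace ℝ (Fin n)) : Prop :=
  ∀ i x, blk c i (g x) = blk c i x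

theorem blockIso_trans {n r : ℕ} {c : Fin n → Fin r}
    {g h : EuclideanSpace ℝ (Fin n) ≃ₗᵢ[ℝ] EuclideanSpace ℝ (Fin n)} (hg : BlockIso c g)
    (hh : BlockIso c h) : BlockIso c (g.trans h) := by
  intro i x
  rw [LinearIsometryEquiv.trans_apply, hh, hg]

theorem norm_blk {n r : ℕ} (c : Fin n → Fin r) (x : EuclideanSpace ℝ (Fin n)) :
    ‖x‖ ^ 2 = ∑ i, blk c i x := by
  rw [EuclideanSpace.norm_sq_eq]
  simp only [Real.norm_eq_abs, sq_abs, blk]
  rw [Finset.sum_fiberwise]

theorem reflection_block {n r : ℕ} (c : Fin n → Fin r) (i : Fin r)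
    (d : EuclideanSpace ℝ (Fin n)) (hd : ∀ l, c l ≠ i → d l = 0) :
    BlockIso c ((ℝ ∙ d)ᗮ.reflection) := by
  have hcoord : ∀ z l, c l ≠ i → ((ℝ ∙ d)ᗮ.reflection z) l = z l := by
    intro z l hl
    rw [Submodule.reflection_orthogonal_apply, Submodule.reflection_singleton_apply]
    simp [hd l hl]
  have hj : ∀ j, j ≠ i → ∀ z, blk c j ((ℝ ∙ d)ᗮ.reflection z) = blk c j z := by
    intro j hji z
    unfold blk
    refine Finset.sum_congr rfl fun l hl => ?_
    rw [hcoord z l (by rw [(Finset.mem_filter.1 hl).2]; exact hji)]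
  intro j z
  rcases eq_or_ne j i with rfl | hji
  · have h1 := norm_blk c ((ℝ ∙ d)ᗮ.reflection z)
    have h2 := norm_blk c z
    rw [LinearIsometryEquiv.norm_map, h2, ← Finset.add_sum_erase _ _ (Finset.mem_univ j),
      ← Finset.add_sum_erase _ _ (Finset.mem_univ j)] at h1
    rw [Finset.sum_congr rfl fun a ha => hj a (Finset.ne_of_mem_erase ha) z] at h1
    linarith
  · exact hj j hji z

theorem exists_blockIso {n r : ℕ} (c : Fin n → Fin r) (x y : EuclideanSpace ℝ (Fin n))
    (h : ∀ i, blk c i y = blk c i x) : ∃ g, BlockIso c g ∧ g x = y := by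
  classical
  have key : ∀ s : Finset (Fin r), ∃ g, BlockIso c g ∧
      g x = WithLp.toLp 2 (fun l => if c l ∈ s then y l else x l) := by
    intro s
    induction s using Finset.induction_on with
    | empty =>
      refine ⟨LinearIsometryEquiv.refl ℝ _, fun i z => rfl, ?_⟩
      ext l
      simp
    | insert i s hi ih =>
      obtain ⟨g, hg, hgx⟩ := ih
      set w : EuclideanSpace ℝ (Fin n) := WithLp.toLp 2 (fun l => if c l ∈ s then y l else x l)
        with hw
      set w' : EuclideanSpace ℝ (Fin n) :=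
        WithLp.toLp 2 (fun l => if c l ∈ insert i s then y l else x l) with hw'
      have hwl : ∀ l, w l = if c l ∈ s then y l else x l := fun l => rfl
      have hwl' : ∀ l, w' l = if c l ∈ insert i s then y l else x l := fun l => rfl
      have hbl : ∀ j, blk c j w' = blk c j w := by
        intro j
        rcases eq_or_ne j i with rfl | hji
        · have e1 : blk c j w' = blk c j y := by
            unfold blk
            refine Finset.sum_congr rfl fun l hl => ?_
            rw [hwl', (Finset.mem_filter.1 hl).2, if_pos (Finset.mem_insert_self _ _)]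
          have e2 : blk c j w = blk c j x := by
            unfold blk
            refine Finset.sum_congr rfl fun l hl => ?_
            rw [hwl, (Finset.mem_filter.1 hl).2, if_neg hi]
          rw [e1, e2, h]
        · unfold blk
          refine Finset.sum_congr rfl fun l hl => ?_
          rw [hwl', hwl, (Finset.mem_filter.1 hl).2]
          simp [hji]
      have hnorm : ‖w‖ = ‖w'‖ := by
        have e1 : ‖w‖ ^ 2 = ‖w'‖ ^ 2 := by
          rw [norm_blk c, norm_blk c]
          exact Finset.sum_congr rfl fun j _ => (hbl j).symm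
        exact (pow_left_inj₀ (norm_nonneg _) (norm_nonneg _) (by norm_num)).1 e1
      refine ⟨g.trans ((ℝ ∙ (w - w'))ᗮ.reflection), blockIso_trans hg
        (reflection_block c i (w - w') ?_), ?_⟩
      · intro l hl
        rw [PiLp.sub_apply, hwl, hwl']
        simp [hl]
      · rw [LinearIsometryEquiv.trans_apply, hgx]
        exact Submodule.reflection_sub hnorm
  obtain ⟨g, hg, hgx⟩ := key Finset.univ
  refine ⟨g, hg, ?_⟩
  rw [hgx]
  ext l
  simp

/-- Invariance under a product of orthogonal groups. -/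
theorem main_block {n r : ℕ} (c : Fin n → Fin r) (hc : Function.Surjective c) (hr : 2 ≤ r)
    (K : Set (EuclideanSpace ℝ (Fin n))) (hKb : Bornology.IsBounded K)
    (hK : ∀ e : EuclideanSpace ℝ (Fin n), ‖e‖ = 1 → ∃ x, ∀ t ∈ Icc (0 : ℝ) 1, x + t • e ∈ K)
    (hinv : ∀ g, BlockIso c g → ∀ x ∈ K, g x ∈ K) :
    ENNReal.ofReal ((n : ℝ) - r + 3 / 2) ≤ dimH K := by
  classical
  obtain ⟨k, rfl⟩ : ∃ k, r = k + 1 := ⟨r - 1, by omega⟩
  set q : Fin k → Fin n → ℝ := fun i l => if c l = Fin.castSucc i then 1 else 0 with hq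
  have hqs : ∀ i (x : EuclideanSpace ℝ (Fin n)), ∑ l, q i l * x l ^ 2 =
      blk c (Fin.castSucc i) x := by
    intro i x
    unfold blk
    rw [Finset.sum_filter]
    refine Finset.sum_congr rfl fun l _ => ?_
    rw [hq]
    simp only
    split_ifs <;> simp
  obtain ⟨u, hu⟩ := hc (Fin.castSucc ⟨0, by omega⟩)
  obtain ⟨v, hv⟩ := hc (Fin.last k)
  have h := main_coords q ⟨0, by omega⟩ u v (by
    rw [hq]
    simp only [hu, hv]
    rw [if_neg (Fin.castSucc_lt_last _).ne']
    norm_num) K hKb hK (by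
    intro x hx y h1 h2
    have hb1 : ∀ i : Fin k, blk c (Fin.castSucc i) y = blk c (Fin.castSucc i) x := by
      intro i
      rw [← hqs, ← hqs]
      exact h2 i
    have hb : ∀ i, blk c i y = blk c i x := by
      intro i
      refine Fin.lastCases ?_ hb1 i
      have e1 := norm_blk c y
      have e2 := norm_blk c x
      rw [EuclideanSpace.norm_sq_eq] at e1 e2
      simp only [Real.norm_eq_abs, sq_abs] at e1 e2
      rw [Fin.sum_univ_castSucc] at e1 e2
      rw [Finset.sum_congr rfl fun i _ => hb1 i] at e1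
      linarith
    obtain ⟨g, hg, hgx⟩ := exists_blockIso c x y hb
    rw [← hgx]
    exact hinv g hg x hx)
  refine le_trans (ENNReal.ofReal_le_ofReal ?_) h
  push_cast
  linarith

end Pool.Agent.Y322.KS
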