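import Mathlib

/-!
# Sublevel sets of functions on intervals, and pairs of parabolas
-/

set_option autoImplicit false

open Set MeasureTheory

namespace Pool.Agent.Y322.KS

theorem vol_diam {T : Set ℝ} {d : ℝ} (h : ∀ x ∈ T, ∀ y ∈ T, |x - y| ≤ d) :
    volume T ≤ ENNReal.ofReal (2 * d) := by
  rcases T.eq_empty_or_nonempty with rfl | ⟨x₀, hx₀⟩
  · simp
  · have hsub : T ⊆ Icc (x₀ - d) (x₀ + d) := by
      intro y hy
      have := abs_le.1 (h x₀ hx₀ y hy)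
      exact ⟨by linarith, by linarith⟩
    refine (measure_mono hsub).trans (le_of_eq ?_)
    rw [Real.volume_Icc]
    congr 1
    ring

theorem slope_large {f f' : ℝ → ℝ} {S : Set ℝ} (hS : S.OrdConnected) {c ε : ℝ} (hc : 0 < c)
    (hf : ∀ x ∈ S, HasDerivAt f (f' x) x) (h : ∀ x ∈ S, c ≤ |f' x|) :
    volume {x | x ∈ S ∧ |f x| ≤ ε} ≤ ENNReal.ofReal (4 * (ε / c)) := by
  have key : ∀ x ∈ {x | x ∈ S ∧ |f x| ≤ ε}, ∀ y ∈ {x | x ∈ S ∧ |f x| ≤ ε}, x < y →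
      y - x ≤ 2 * ε / c := by
    rintro x ⟨hx, hfx⟩ y ⟨hy, hfy⟩ hxy
    have hmem : ∀ w, x ≤ w → w ≤ y → w ∈ S := fun w h1 h2 => hS.out hx hy ⟨h1, h2⟩
    obtain ⟨z, hz, hzz⟩ := exists_hasDerivAt_eq_slope f f' hxy
      (fun w hw => (hf w (hmem w hw.1 hw.2)).continuousAt.continuousWithinAt)
      (fun w hw => hf w (hmem w hw.1.le hw.2.le))
    have h1 := h z (hmem z hz.1.le hz.2.le)
    rw [hzz, abs_div, abs_of_pos (sub_pos.2 hxy), le_div_iff₀ (sub_pos.2 hxy)] at h1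
    rw [le_div_iff₀ hc]
    have h2 : |f y - f x| ≤ 2 * ε := by
      have h3 := abs_le.1 hfx
      have h4 := abs_le.1 hfy
      rw [abs_le]
      constructor <;> linarith
    linarith
  refine (vol_diam (d := 2 * ε / c) ?_).trans (le_of_eq ?_)
  · intro x hx y hy
    rcases lt_trichotomy x y with hxy | hxy | hxy
    · rw [abs_sub_comm, abs_of_pos (sub_pos.2 hxy)]
      exact key x hx y hy hxy
    · have hε : 0 ≤ ε := (abs_nonneg _).trans hx.2
      rw [hxy, sub_self, abs_zero]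
      positivity
    · rw [abs_of_pos (sub_pos.2 hxy)]
      exact key y hy x hx hxy
  · congr 1
    ring

theorem mono_of_deriv {f f' : ℝ → ℝ} {S : Set ℝ} (hS : S.OrdConnected)
    (hf : ∀ x ∈ S, HasDerivAt f (f' x) x) (h : ∀ x ∈ S, 0 ≤ f' x) :
    ∀ x ∈ S, ∀ y ∈ S, x ≤ y → f x ≤ f y := by
  intro x hx y hy hxy
  rcases hxy.eq_or_lt with rfl | hlt
  · exact le_rfl
  · have hmem : ∀ w, x ≤ w → w ≤ y → w ∈ S := fun w h1 h2 => hS.out hx hy ⟨h1, h2⟩
    obtain ⟨z, hz, hzz⟩ := exists_hasDerivAt_eq_slope f f' hlt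
      (fun w hw => (hf w (hmem w hw.1 hw.2)).continuousAt.continuousWithinAt)
      (fun w hw => hf w (hmem w hw.1.le hw.2.le))
    have h1 := h z (hmem z hz.1.le hz.2.le)
    rw [hzz, le_div_iff₀ (sub_pos.2 hlt)] at h1
    linarith

theorem ord_ge {f f' : ℝ → ℝ} {S : Set ℝ} (hS : S.OrdConnected)
    (hf : ∀ x ∈ S, HasDerivAt f (f' x) x) (h : ∀ x ∈ S, 0 ≤ f' x) (l : ℝ) :
    ({x | x ∈ S ∧ l ≤ f x}).OrdConnected := by
  refine ⟨fun x hx y hy z hz => ⟨hS.out hx.1 hy.1 hz, ?_⟩⟩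
  exact hx.2.trans (mono_of_deriv hS hf h x hx.1 z (hS.out hx.1 hy.1 hz) hz.1)

theorem ord_le {f f' : ℝ → ℝ} {S : Set ℝ} (hS : S.OrdConnected)
    (hf : ∀ x ∈ S, HasDerivAt f (f' x) x) (h : ∀ x ∈ S, 0 ≤ f' x) (l : ℝ) :
    ({x | x ∈ S ∧ f x ≤ l}).OrdConnected := by
  refine ⟨fun x hx y hy z hz => ⟨hS.out hx.1 hy.1 hz, ?_⟩⟩
  exact (mono_of_deriv hS hf h z (hS.out hx.1 hy.1 hz) y hy.1 hz.2).trans hy.2

theorem three_parts {S A B C : Set ℝ} (hsub : S ⊆ (A ∪ B) ∪ C) {a b c : ℝ} (ha : 0 ≤ a)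
    (hb : 0 ≤ b) (hc : 0 ≤ c) (h1 : volume A ≤ ENNReal.ofReal a) (h2 : volume B ≤ ENNReal.ofReal b)
    (h3 : volume C ≤ ENNReal.ofReal c) : volume S ≤ ENNReal.ofReal (a + b + c) := by
  calc volume S ≤ ENNReal.ofReal a + ENNReal.ofReal b + ENNReal.ofReal c :=
        (measure_mono hsub).trans ((measure_union_le _ _).trans
          (add_le_add ((measure_union_le _ _).trans (add_le_add h1 h2)) h3))
    _ = ENNReal.ofReal (a + b + c) := by
        rw [← ENNReal.ofReal_add ha hb, ← ENNReal.ofReal_add (add_nonneg ha hb) hc]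

theorem second_large {f f' f'' : ℝ → ℝ} {S : Set ℝ} (hS : S.OrdConnected) {c ε : ℝ} (hc : 0 < c)
    (hε : 0 < ε) (hf : ∀ x ∈ S, HasDerivAt f (f' x) x) (hf' : ∀ x ∈ S, HasDerivAt f' (f'' x) x)
    (h : ∀ x ∈ S, c ≤ f'' x) :
    volume {x | x ∈ S ∧ |f x| ≤ ε} ≤ ENNReal.ofReal (12 * Real.sqrt (ε / c)) := by
  set T : ℝ := Real.sqrt (ε / c) with hT
  have hT0 : 0 < T := Real.sqrt_pos.2 (div_pos hε hc)
  have hT2 : T * T = ε / c := Real.mul_self_sqrt (div_pos hε hc).le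
  have hl0 : 0 < c * T := mul_pos hc hT0
  have hdiv : ε / (c * T) = T := by
    rw [div_eq_iff hl0.ne']
    have : ε = (ε / c) * c := by field_simp
    rw [this, ← hT2]; ring
  have h0 : ∀ x ∈ S, 0 ≤ f'' x := fun x hx => hc.le.trans (h x hx)
  have h1 : volume {x | x ∈ S ∧ |f' x| ≤ c * T} ≤ ENNReal.ofReal (4 * T) := by
    refine (slope_large (ε := c * T) hS hc hf' (fun x hx =>
      (h x hx).trans (le_abs_self _))).trans (le_of_eq ?_)
    rw [mul_div_cancel_left₀ _ hc.ne']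
  have h2 : volume {x | x ∈ {x | x ∈ S ∧ c * T ≤ f' x} ∧ |f x| ≤ ε} ≤ ENNReal.ofReal (4 * T) := by
    refine (slope_large (ε := ε) (ord_ge hS hf' h0 _) hl0 (fun x hx => hf x hx.1)
      (fun x hx => hx.2.trans (le_abs_self _))).trans (le_of_eq ?_)
    rw [hdiv]
  have h3 : volume {x | x ∈ {x | x ∈ S ∧ f' x ≤ -(c * T)} ∧ |f x| ≤ ε} ≤
      ENNReal.ofReal (4 * T) := by
    refine (slope_large (ε := ε) (ord_le hS hf' h0 _) hl0 (fun x hx => hf x hx.1)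
      (fun x hx => ?_)).trans (le_of_eq ?_)
    · have := hx.2
      exact (by linarith : c * T ≤ -f' x).trans (neg_le_abs _)
    · rw [hdiv]
  have hsub : {x | x ∈ S ∧ |f x| ≤ ε} ⊆
      ({x | x ∈ S ∧ |f' x| ≤ c * T} ∪ {x | x ∈ {x | x ∈ S ∧ c * T ≤ f' x} ∧ |f x| ≤ ε}) ∪
        {x | x ∈ {x | x ∈ S ∧ f' x ≤ -(c * T)} ∧ |f x| ≤ ε} := by
    rintro x ⟨hx, hx0⟩
    by_cases ha : |f' x| ≤ c * T
    · exact Or.inl (Or.inl ⟨hx, ha⟩)
    · rw [abs_le, not_and_or] at ha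
      push Not at ha
      rcases ha with ha | ha
      · exact Or.inr ⟨⟨hx, ha.le⟩, hx0⟩
      · exact Or.inl (Or.inr ⟨⟨hx, ha.le⟩, hx0⟩)
  refine (three_parts hsub (by positivity) (by positivity) (by positivity) h1 h2 h3).trans
    (le_of_eq ?_)
  congr 1
  ring

theorem second_large' {f f' f'' : ℝ → ℝ} {S : Set ℝ} (hS : S.OrdConnected) {c ε : ℝ} (hc : 0 < c)
    (hε : 0 < ε) (hf : ∀ x ∈ S, HasDerivAt f (f' x) x) (hf' : ∀ x ∈ S, HasDerivAt f' (f'' x) x)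
    (h : ∀ x ∈ S, f'' x ≤ -c) :
    volume {x | x ∈ S ∧ |f x| ≤ ε} ≤ ENNReal.ofReal (12 * Real.sqrt (ε / c)) := by
  have := second_large (f := fun x => - f x) (f' := fun x => - f' x) (f'' := fun x => - f'' x) hS hc
    hε (fun x hx => (hf x hx).neg) (fun x hx => (hf' x hx).neg) (fun x hx => by
      have := h x hx
      linarith)
  simpa only [abs_neg] using this

/-- The second derivative is controlled by a function `κ` whose derivative is large. -/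
theorem third_large {f f' f'' κ κ' : ℝ → ℝ} {S : Set ℝ} (hS : S.OrdConnected) {a b ε : ℝ}
    (ha : 0 < a) (hb : 0 < b) (hε : 0 < ε) (hf : ∀ x ∈ S, HasDerivAt f (f' x) x)
    (hf' : ∀ x ∈ S, HasDerivAt f' (f'' x) x) (hκ : ∀ x ∈ S, HasDerivAt κ (κ' x) x)
    (h1 : ∀ x ∈ S, a ≤ κ' x) (h2 : ∀ x ∈ S, 0 ≤ κ x → b * κ x ≤ f'' x)
    (h3 : ∀ x ∈ S, κ x ≤ 0 → f'' x ≤ b * κ x) :
    volume {x | x ∈ S ∧ |f x| ≤ ε} ≤
      ENNReal.ofReal (28 * (ε / (a * b)) ^ ((1 : ℝ) / 3)) := by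
  have hab : 0 < a * b := mul_pos ha hb
  have hq : 0 < ε / (a * b) := div_pos hε hab
  set T : ℝ := (ε / (a * b)) ^ ((1 : ℝ) / 3) with hT
  have hT0 : 0 < T := Real.rpow_pos_of_pos hq _
  have hT3 : T ^ 3 = ε / (a * b) := by
    rw [hT, ← Real.rpow_natCast, ← Real.rpow_mul hq.le]
    norm_num
  have hl0 : 0 < a * T := mul_pos ha hT0
  have hc0 : 0 < b * (a * T) := mul_pos hb hl0
  have hsq : Real.sqrt (ε / (b * (a * T))) = T := by
    have : ε / (b * (a * T)) = T ^ 2 := by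
      rw [div_eq_iff hc0.ne']
      have e1 : ε = T ^ 3 * (a * b) := by rw [hT3]; field_simp
      rw [e1]; ring
    rw [this, Real.sqrt_sq hT0.le]
  have h0 : ∀ x ∈ S, 0 ≤ κ' x := fun x hx => ha.le.trans (h1 x hx)
  have p1 : volume {x | x ∈ S ∧ |κ x| ≤ a * T} ≤ ENNReal.ofReal (4 * T) := by
    refine (slope_large (ε := a * T) hS ha hκ (fun x hx =>
      (h1 x hx).trans (le_abs_self _))).trans (le_of_eq ?_)
    rw [mul_div_cancel_left₀ _ ha.ne']
  have p2 : volume {x | x ∈ {x | x ∈ S ∧ a * T ≤ κ x} ∧ |f x| ≤ ε} ≤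
      ENNReal.ofReal (12 * T) := by
    refine (second_large (c := b * (a * T)) (ord_ge hS hκ h0 _) hc0 hε (fun x hx => hf x hx.1)
      (fun x hx => hf' x hx.1) (fun x hx => ?_)).trans (le_of_eq ?_)
    · exact (mul_le_mul_of_nonneg_left hx.2 hb.le).trans (h2 x hx.1 (hl0.le.trans hx.2))
    · rw [hsq]
  have p3 : volume {x | x ∈ {x | x ∈ S ∧ κ x ≤ -(a * T)} ∧ |f x| ≤ ε} ≤
      ENNReal.ofReal (12 * T) := by
    refine (second_large' (c := b * (a * T)) (ord_le hS hκ h0 _) hc0 hε (fun x hx => hf x hx.1)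
      (fun x hx => hf' x hx.1) (fun x hx => ?_)).trans (le_of_eq ?_)
    · have e1 := h3 x hx.1 (hx.2.trans (by linarith))
      have e2 := mul_le_mul_of_nonneg_left hx.2 hb.le
      linarith
    · rw [hsq]
  have hsub : {x | x ∈ S ∧ |f x| ≤ ε} ⊆
      ({x | x ∈ S ∧ |κ x| ≤ a * T} ∪ {x | x ∈ {x | x ∈ S ∧ a * T ≤ κ x} ∧ |f x| ≤ ε}) ∪
        {x | x ∈ {x | x ∈ S ∧ κ x ≤ -(a * T)} ∧ |f x| ≤ ε} := by
    rintro x ⟨hx, hx0⟩
    by_cases hh : |κ x| ≤ a * T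
    · exact Or.inl (Or.inl ⟨hx, hh⟩)
    · rw [abs_le, not_and_or] at hh
      push Not at hh
      rcases hh with hh | hh
      · exact Or.inr ⟨⟨hx, hh.le⟩, hx0⟩
      · exact Or.inl (Or.inr ⟨⟨hx, hh.le⟩, hx0⟩)
  refine (three_parts hsub (by positivity) (by positivity) (by positivity) p1 p2 p3).trans
    (le_of_eq ?_)
  congr 1
  ring

/-- The part of the sublevel set where the slope is large. -/
theorem slope_part {f f' f'' κ κ' : ℝ → ℝ} {S : Set ℝ} (hS : S.OrdConnected) {b lam ε : ℝ}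
    (hb : 0 < b) (hlam : 0 < lam) (hε : 0 < ε) (hf : ∀ x ∈ S, HasDerivAt f (f' x) x)
    (hf' : ∀ x ∈ S, HasDerivAt f' (f'' x) x) (hκ : ∀ x ∈ S, HasDerivAt κ (κ' x) x)
    (h1 : ∀ x ∈ S, 0 ≤ κ' x) (h2 : ∀ x ∈ S, 0 ≤ κ x → b * κ x ≤ f'' x)
    (h3 : ∀ x ∈ S, κ x ≤ 0 → f'' x ≤ b * κ x) :
    volume {x | (x ∈ S ∧ |f x| ≤ ε) ∧ lam ≤ |f' x|} ≤ ENNReal.ofReal (16 * (ε / lam)) := by
  have hP : ({x | x ∈ S ∧ 0 ≤ κ x}).OrdConnected := ord_ge hS hκ h1 0
  have hM : ({x | x ∈ S ∧ κ x ≤ 0}).OrdConnected := ord_le hS hκ h1 0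
  have q1 : volume {x | x ∈ {x | x ∈ {x | x ∈ S ∧ 0 ≤ κ x} ∧ lam ≤ f' x} ∧ |f x| ≤ ε} ≤
      ENNReal.ofReal (4 * (ε / lam)) :=
    slope_large (ord_ge hP (fun x hx => hf' x hx.1) (fun x hx =>
      (mul_nonneg hb.le hx.2).trans (h2 x hx.1 hx.2)) _) hlam (fun x hx => hf x hx.1.1)
      (fun x hx => hx.2.trans (le_abs_self _))
  have q2 : volume {x | x ∈ {x | x ∈ {x | x ∈ S ∧ 0 ≤ κ x} ∧ f' x ≤ -lam} ∧ |f x| ≤ ε} ≤
      ENNReal.ofReal (4 * (ε / lam)) :=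
    slope_large (ord_le hP (fun x hx => hf' x hx.1) (fun x hx =>
      (mul_nonneg hb.le hx.2).trans (h2 x hx.1 hx.2)) _) hlam (fun x hx => hf x hx.1.1)
      (fun x hx => (by linarith [hx.2] : lam ≤ -f' x).trans (neg_le_abs _))
  have hneg : ∀ x ∈ {x | x ∈ S ∧ κ x ≤ 0}, 0 ≤ -f'' x := fun x hx => by
    have := h3 x hx.1 hx.2
    have h4 := mul_nonpos_of_nonneg_of_nonpos hb.le hx.2
    linarith
  have q3 : volume {x | x ∈ {x | x ∈ {x | x ∈ S ∧ κ x ≤ 0} ∧ lam ≤ -f' x} ∧ |f x| ≤ ε} ≤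
      ENNReal.ofReal (4 * (ε / lam)) :=
    slope_large (ord_ge (f := fun x => -f' x) hM (fun x hx => (hf' x hx.1).neg) hneg _) hlam
      (fun x hx => hf x hx.1.1) (fun x hx => hx.2.trans (neg_le_abs _))
  have q4 : volume {x | x ∈ {x | x ∈ {x | x ∈ S ∧ κ x ≤ 0} ∧ -f' x ≤ -lam} ∧ |f x| ≤ ε} ≤
      ENNReal.ofReal (4 * (ε / lam)) :=
    slope_large (ord_le (f := fun x => -f' x) hM (fun x hx => (hf' x hx.1).neg) hneg _) hlam
      (fun x hx => hf x hx.1.1) (fun x hx => by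
        have h := hx.2
        exact (by linarith : lam ≤ f' x).trans (le_abs_self _))
  have hsub : {x | (x ∈ S ∧ |f x| ≤ ε) ∧ lam ≤ |f' x|} ⊆
      (({x | x ∈ {x | x ∈ {x | x ∈ S ∧ 0 ≤ κ x} ∧ lam ≤ f' x} ∧ |f x| ≤ ε} ∪
        {x | x ∈ {x | x ∈ {x | x ∈ S ∧ 0 ≤ κ x} ∧ f' x ≤ -lam} ∧ |f x| ≤ ε}) ∪
      {x | x ∈ {x | x ∈ {x | x ∈ S ∧ κ x ≤ 0} ∧ lam ≤ -f' x} ∧ |f x| ≤ ε}) ∪
        {x | x ∈ {x | x ∈ {x | x ∈ S ∧ κ x ≤ 0} ∧ -f' x ≤ -lam} ∧ |f x| ≤ ε} := by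
    rintro x ⟨⟨hx, hxe⟩, hl⟩
    rcases le_total 0 (κ x) with hk | hk
    · rcases le_abs.1 hl with h | h
      · exact Or.inl (Or.inl (Or.inl ⟨⟨⟨hx, hk⟩, h⟩, hxe⟩))
      · exact Or.inl (Or.inl (Or.inr ⟨⟨⟨hx, hk⟩, (by linarith : f' x ≤ -lam)⟩, hxe⟩))
    · rcases le_abs.1 hl with h | h
      · exact Or.inr ⟨⟨⟨hx, hk⟩, (by linarith : -f' x ≤ -lam)⟩, hxe⟩
      · exact Or.inl (Or.inr ⟨⟨⟨hx, hk⟩, h⟩, hxe⟩)
  have hpos : 0 ≤ 4 * (ε / lam) := by positivity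
  calc _ ≤ ENNReal.ofReal (4 * (ε / lam)) + ENNReal.ofReal (4 * (ε / lam)) +
        ENNReal.ofReal (4 * (ε / lam)) + ENNReal.ofReal (4 * (ε / lam)) :=
        (measure_mono hsub).trans ((measure_union_le _ _).trans (add_le_add
          ((measure_union_le _ _).trans (add_le_add ((measure_union_le _ _).trans
            (add_le_add q1 q2)) q3)) q4))
    _ = _ := by
        rw [← ENNReal.ofReal_add hpos hpos, ← ENNReal.ofReal_add (by positivity) hpos,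
          ← ENNReal.ofReal_add (by positivity) hpos]
        congr 1
        ring

theorem slope_le {f f' : ℝ → ℝ} {x y C : ℝ} (hxy : x ≤ y)
    (hf : ∀ z ∈ Icc x y, HasDerivAt f (f' z) z) (h : ∀ z ∈ Icc x y, f' z ≤ C) :
    f y - f x ≤ C * (y - x) := by
  rcases hxy.eq_or_lt with rfl | hlt
  · simp
  · obtain ⟨z, hz, hzz⟩ := exists_hasDerivAt_eq_slope f f' hlt
      (fun w hw => (hf w hw).continuousAt.continuousWithinAt)
      (fun w hw => hf w ⟨hw.1.le, hw.2.le⟩)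
    have h1 := h z ⟨hz.1.le, hz.2.le⟩
    rwa [hzz, div_le_iff₀ (sub_pos.2 hlt)] at h1

/-- Two almost double zeros cannot be far apart. -/
theorem two_point {f f' f'' κ κ' : ℝ → ℝ} {S : Set ℝ} (hS : S.OrdConnected) {a b c₀ ε v₁ v₂ : ℝ}
    (ha : 0 < a) (hb : 0 < b) (hc : 0 < c₀) (hf : ∀ x ∈ S, HasDerivAt f (f' x) x)
    (hf' : ∀ x ∈ S, HasDerivAt f' (f'' x) x) (hκ : ∀ x ∈ S, HasDerivAt κ (κ' x) x)
    (h1 : ∀ x ∈ S, a ≤ κ' x) (h2 : ∀ x ∈ S, 0 ≤ κ x → b * κ x ≤ f'' x)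
    (h3 : ∀ x ∈ S, κ x ≤ 0 → f'' x ≤ b * κ x) (hv₁ : v₁ ∈ S) (hv₂ : v₂ ∈ S) (hv : v₁ + c₀ ≤ v₂)
    (he₁ : |f v₁| ≤ ε) (he₂ : |f v₂| ≤ ε) (hε : ε < a * b * c₀ ^ 3 / 512) :
    a * b * c₀ ^ 2 / 192 ≤ |f' v₁| ∨ a * b * c₀ ^ 2 / 192 ≤ |f' v₂| := by
  by_contra hcon
  push Not at hcon
  obtain ⟨hs₁, hs₂⟩ := hcon
  have hs₁' := (abs_lt.1 hs₁).2
  have hs₂' := (abs_lt.1 hs₂).2
  have hab : 0 < a * b := mul_pos ha hb
  have hmem : ∀ x, v₁ ≤ x → x ≤ v₂ → x ∈ S := fun x h4 h5 => hS.out hv₁ hv₂ ⟨h4, h5⟩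
  -- the function `κ` grows
  have hgrow : ∀ x y, v₁ ≤ x → x ≤ y → y ≤ v₂ → a * (y - x) ≤ κ y - κ x := by
    intro x y hx hxy hy
    have h4 := slope_le (f := fun z => -κ z) (f' := fun z => -κ' z) (C := -a) hxy
      (fun z hz => (hκ z (hmem z (hx.trans hz.1) (hz.2.trans hy))).neg)
      (fun z hz => neg_le_neg (h1 z (hmem z (hx.trans hz.1) (hz.2.trans hy))))
    linarith
  set L : ℝ := a * b * c₀ ^ 2 / 192 with hL
  have hL0 : 0 < L := by positivity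
  -- the derivative is bounded above on the interval
  have hub : ∀ x, v₁ ≤ x → x ≤ v₂ → f' x ≤ L := by
    intro x hx hxv
    rcases le_total (κ x) 0 with hk | hk
    · have h4 := slope_le (f := f') (f' := f'') (C := 0) hx
        (fun z hz => hf' z (hmem z hz.1 (hz.2.trans hxv))) (fun z hz => by
          have h5 := hgrow z x hz.1 hz.2 hxv
          have h6 : κ z ≤ 0 := by
            have : 0 ≤ a * (x - z) := mul_nonneg ha.le (by linarith [hz.2])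
            linarith
          exact (h3 z (hmem z hz.1 (hz.2.trans hxv)) h6).trans
            (mul_nonpos_of_nonneg_of_nonpos hb.le h6))
      linarith
    · have h4 := slope_le (f := fun z => -f' z) (f' := fun z => -f'' z) (C := 0) hxv
        (fun z hz => (hf' z (hmem z (hx.trans hz.1) hz.2)).neg) (fun z hz => by
          have h5 := hgrow x z hx hz.1 hz.2
          have h6 : 0 ≤ κ z := by
            have : 0 ≤ a * (z - x) := mul_nonneg ha.le (by linarith [hz.1])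
            linarith
          have h7 := h2 z (hmem z (hx.trans hz.1) hz.2) h6
          have h8 := mul_nonneg hb.le h6
          linarith)
      linarith
  set d : ℝ := v₂ - v₁ with hd
  have hdc : c₀ ≤ d := by linarith
  have hd0 : 0 < d := by linarith
  -- a quarter of the interval on which the derivative is very negative
  have hquart : ∃ x y, v₁ ≤ x ∧ x ≤ y ∧ y ≤ v₂ ∧ y - x = d / 4 ∧
      ∀ z ∈ Icc x y, f' z ≤ L - a * b * d ^ 2 / 16 := by
    rcases le_total 0 (κ (v₁ + d / 2)) with hk | hk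
    · refine ⟨v₁ + d / 2, v₁ + 3 * d / 4, by linarith, by linarith, by linarith, by ring, ?_⟩
      intro z hz
      have hz1 := hz.1
      have hz2 := hz.2
      have hkz : ∀ w, z ≤ w → w ≤ v₂ → 0 ≤ κ w := by
        intro w hw hw2
        have h5 := hgrow (v₁ + d / 2) w (by linarith) (by linarith) hw2
        have : 0 ≤ a * (w - (v₁ + d / 2)) := mul_nonneg ha.le (by linarith)
        linarith
      have e1 := slope_le (f := fun z => -f' z) (f' := fun z => -f'' z) (C := 0)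
        (x := z) (y := v₁ + 3 * d / 4) hz2
        (fun w hw => (hf' w (hmem w (by linarith [hw.1]) (by linarith [hw.2]))).neg) (fun w hw => by
          have h6 := hkz w hw.1 (by linarith [hw.2])
          have h7 := h2 w (hmem w (by linarith [hw.1]) (by linarith [hw.2])) h6
          have h8 := mul_nonneg hb.le h6
          linarith)
      have e2 := slope_le (f := fun z => -f' z) (f' := fun z => -f'' z) (C := -(b * (a * (d / 4))))
        (x := v₁ + 3 * d / 4) (y := v₂) (by linarith)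
        (fun w hw => (hf' w (hmem w (by linarith [hw.1]) hw.2)).neg) (fun w hw => by
          have hw1 := hw.1
          have h5 := hgrow (v₁ + d / 2) w (by linarith) (by linarith) hw.2
          have h6 : a * (d / 4) ≤ κ w := by
            have : a * (d / 4) ≤ a * (w - (v₁ + d / 2)) :=
              mul_le_mul_of_nonneg_left (by linarith) ha.le
            linarith
          have h7 := h2 w (hmem w (by linarith) hw.2) ((by positivity : 0 ≤ a * (d / 4)).trans h6)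
          have h8 := mul_le_mul_of_nonneg_left h6 hb.le
          linarith)
      have e3 : v₂ - (v₁ + 3 * d / 4) = d / 4 := by rw [hd]; ring
      rw [e3] at e2
      have e4 : -(b * (a * (d / 4))) * (d / 4) = -(a * b * d ^ 2 / 16) := by ring
      rw [e4] at e2
      linarith
    · refine ⟨v₁ + d / 4, v₁ + d / 2, by linarith, by linarith, by linarith, by ring, ?_⟩
      intro z hz
      have hz1 := hz.1
      have hz2 := hz.2
      have hkz : ∀ w, v₁ ≤ w → w ≤ z → κ w ≤ 0 := by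
        intro w hw hw2
        have h5 := hgrow w (v₁ + d / 2) hw (by linarith) (by linarith)
        have : 0 ≤ a * (v₁ + d / 2 - w) := mul_nonneg ha.le (by linarith)
        linarith
      have e1 := slope_le (f := f') (f' := f'') (C := 0)
        (x := v₁ + d / 4) (y := z) hz1
        (fun w hw => hf' w (hmem w (by linarith [hw.1]) (by linarith [hw.2]))) (fun w hw => by
          have h6 := hkz w (by linarith [hw.1]) hw.2
          have h7 := h3 w (hmem w (by linarith [hw.1]) (by linarith [hw.2])) h6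
          have h8 := mul_nonpos_of_nonneg_of_nonpos hb.le h6
          linarith)
      have e2 := slope_le (f := f') (f' := f'') (C := -(b * (a * (d / 4))))
        (x := v₁) (y := v₁ + d / 4) (by linarith)
        (fun w hw => hf' w (hmem w hw.1 (by linarith [hw.2]))) (fun w hw => by
          have hw2 := hw.2
          have h5 := hgrow w (v₁ + d / 2) hw.1 (by linarith) (by linarith)
          have h6 : a * (d / 4) ≤ -κ w := by
            have : a * (d / 4) ≤ a * (v₁ + d / 2 - w) :=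
              mul_le_mul_of_nonneg_left (by linarith) ha.le
            linarith
          have h60 : κ w ≤ 0 := by
            have : 0 ≤ a * (d / 4) := by positivity
            linarith
          have h7 := h3 w (hmem w hw.1 (by linarith)) h60
          have h8 := mul_le_mul_of_nonneg_left h6 hb.le
          linarith)
      have e3 : v₁ + d / 4 - v₁ = d / 4 := by ring
      rw [e3] at e2
      have e4 : -(b * (a * (d / 4))) * (d / 4) = -(a * b * d ^ 2 / 16) := by ring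
      rw [e4] at e2
      linarith
  obtain ⟨x, y, hx, hxy, hy, hlen, hq⟩ := hquart
  have g1 := slope_le (f := f) (f' := f') (C := L) (x := v₁) (y := x) hx
    (fun w hw => hf w (hmem w hw.1 (by linarith [hw.2])))
    (fun w hw => hub w hw.1 (by linarith [hw.2]))
  have g2 := slope_le (f := f) (f' := f') (C := L - a * b * d ^ 2 / 16) (x := x) (y := y) hxy
    (fun w hw => hf w (hmem w (by linarith [hw.1]) (by linarith [hw.2]))) hq
  have g3 := slope_le (f := f) (f' := f') (C := L) (x := y) (y := v₂) hy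
    (fun w hw => hf w (hmem w (by linarith [hw.1]) hw.2))
    (fun w hw => hub w (by linarith [hw.1]) hw.2)
  rw [hlen] at g2
  have g4 : f v₂ - f v₁ ≤ L * d - a * b * d ^ 3 / 64 := by
    have e : L * (x - v₁) + (L - a * b * d ^ 2 / 16) * (d / 4) + L * (v₂ - y) =
        L * d - a * b * d ^ 3 / 64 := by
      have : v₂ - y = d - d / 4 - (x - v₁) := by linarith
      rw [this]
      ring
    linarith
  have g5 : L ≤ a * b * d ^ 2 / 192 := by
    rw [hL]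
    have : c₀ ^ 2 ≤ d ^ 2 := pow_le_pow_left₀ hc.le hdc 2
    have := mul_le_mul_of_nonneg_left this hab.le
    linarith
  have g6 : L * d ≤ a * b * d ^ 3 / 192 := by
    have := mul_le_mul_of_nonneg_right g5 hd0.le
    calc L * d ≤ a * b * d ^ 2 / 192 * d := this
      _ = _ := by ring
  have g7 : a * b * c₀ ^ 3 ≤ a * b * d ^ 3 :=
    mul_le_mul_of_nonneg_left (pow_le_pow_left₀ hc.le hdc 3) hab.le
  have g8 := (abs_le.1 he₁)
  have g9 := (abs_le.1 he₂)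
  have g10 : 0 < a * b * c₀ ^ 3 := by positivity
  linarith [g8.2, g9.1]

/-- Far pairs in the sublevel set. -/
theorem far_pairs {f f' f'' κ κ' : ℝ → ℝ} {S : Set ℝ} (hS : S.OrdConnected) {a b c₀ ε l : ℝ}
    (ha : 0 < a) (hb : 0 < b) (hc : 0 < c₀) (hc1 : c₀ ≤ 1) (hε : 0 < ε) (hl : 0 ≤ l) (hl1 : l ≤ 1)
    (hSl : volume S ≤ ENNReal.ofReal l) (hf : ∀ x ∈ S, HasDerivAt f (f' x) x)
    (hf' : ∀ x ∈ S, HasDerivAt f' (f'' x) x) (hκ : ∀ x ∈ S, HasDerivAt κ (κ' x) x)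
    (h1 : ∀ x ∈ S, a ≤ κ' x) (h2 : ∀ x ∈ S, 0 ≤ κ x → b * κ x ≤ f'' x)
    (h3 : ∀ x ∈ S, κ x ≤ 0 → f'' x ≤ b * κ x) :
    volume {p : ℝ × ℝ | (p.1 ∈ S ∧ |f p.1| ≤ ε) ∧ (p.2 ∈ S ∧ |f p.2| ≤ ε) ∧ c₀ ≤ |p.1 - p.2|} ≤
      ENNReal.ofReal (200000 * (c₀⁻¹ ^ 4 * (ε / (a * b)) ^ ((4 : ℝ) / 3))) := by
  have hab : 0 < a * b := mul_pos ha hb
  have hq : 0 < ε / (a * b) := div_pos hε hab
  set q : ℝ := ε / (a * b) with hqdef
  have hci : 1 ≤ c₀⁻¹ := (one_le_inv₀ hc).2 hc1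
  rcases lt_or_ge ε (a * b * c₀ ^ 3 / 512) with hcase | hcase
  · set lam : ℝ := a * b * c₀ ^ 2 / 192 with hlam
    have hlam0 : 0 < lam := by positivity
    set T : Set ℝ := {x | x ∈ S ∧ |f x| ≤ ε} with hT
    set Tl : Set ℝ := {x | (x ∈ S ∧ |f x| ≤ ε) ∧ lam ≤ |f' x|} with hTl
    have hTv := third_large hS ha hb hε hf hf' hκ h1 h2 h3
    have hTlv := slope_part hS hb hlam0 hε hf hf' hκ (fun x hx => ha.le.trans (h1 x hx)) h2 h3
    have hsub : {p : ℝ × ℝ | (p.1 ∈ S ∧ |f p.1| ≤ ε) ∧ (p.2 ∈ S ∧ |f p.2| ≤ ε) ∧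
        c₀ ≤ |p.1 - p.2|} ⊆ (T ×ˢ Tl) ∪ (Tl ×ˢ T) := by
      rintro ⟨x, y⟩ ⟨hx, hy, hd⟩
      simp only at hx hy hd
      have key : lam ≤ |f' x| ∨ lam ≤ |f' y| := by
        rcases le_abs.1 hd with h | h
        · exact (two_point hS ha hb hc hf hf' hκ h1 h2 h3 hy.1 hx.1 (by linarith) hy.2 hx.2
            hcase).symm
        · exact two_point hS ha hb hc hf hf' hκ h1 h2 h3 hx.1 hy.1 (by linarith) hx.2 hy.2
            hcase
      rcases key with h | h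
      · exact Or.inr ⟨⟨hx, h⟩, hy⟩
      · exact Or.inl ⟨hx, ⟨hy, h⟩⟩
    have e1 : 16 * (ε / lam) = 3072 * (c₀⁻¹ ^ 2 * q) := by
      rw [hlam, hqdef]
      field_simp
      ring
    rw [e1] at hTlv
    have e2 : q ^ ((1 : ℝ) / 3) * q = q ^ ((4 : ℝ) / 3) := by
      nth_rewrite 2 [← Real.rpow_one q]
      rw [← Real.rpow_add hq]
      norm_num
    have e3 : volume (T ×ˢ Tl) ≤ ENNReal.ofReal (28 * q ^ ((1 : ℝ) / 3)) *
        ENNReal.ofReal (3072 * (c₀⁻¹ ^ 2 * q)) := by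
      rw [Measure.volume_eq_prod, Measure.prod_prod]
      exact mul_le_mul' hTv hTlv
    have e4 : volume (Tl ×ˢ T) ≤ ENNReal.ofReal (3072 * (c₀⁻¹ ^ 2 * q)) *
        ENNReal.ofReal (28 * q ^ ((1 : ℝ) / 3)) := by
      rw [Measure.volume_eq_prod, Measure.prod_prod]
      exact mul_le_mul' hTlv hTv
    refine (measure_mono hsub).trans ((measure_union_le _ _).trans ((add_le_add e3 e4).trans ?_))
    rw [← ENNReal.ofReal_mul (by positivity), ← ENNReal.ofReal_mul (by positivity),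
      ← ENNReal.ofReal_add (by positivity) (by positivity)]
    apply ENNReal.ofReal_le_ofReal
    have e5 : 28 * q ^ ((1 : ℝ) / 3) * (3072 * (c₀⁻¹ ^ 2 * q)) +
        3072 * (c₀⁻¹ ^ 2 * q) * (28 * q ^ ((1 : ℝ) / 3)) =
        172032 * (c₀⁻¹ ^ 2 * (q ^ ((1 : ℝ) / 3) * q)) := by ring
    rw [e5, e2]
    have e6 : c₀⁻¹ ^ 2 ≤ c₀⁻¹ ^ 4 := pow_le_pow_right₀ hci (by norm_num)
    have e7 : 0 ≤ q ^ ((4 : ℝ) / 3) := Real.rpow_nonneg hq.le _
    have e8 := mul_le_mul_of_nonneg_right e6 e7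
    have e9 : 0 ≤ c₀⁻¹ ^ 4 * q ^ ((4 : ℝ) / 3) := by positivity
    linarith
  · have hsub : {p : ℝ × ℝ | (p.1 ∈ S ∧ |f p.1| ≤ ε) ∧ (p.2 ∈ S ∧ |f p.2| ≤ ε) ∧
        c₀ ≤ |p.1 - p.2|} ⊆ S ×ˢ S := fun p hp => ⟨hp.1.1, hp.2.1.1⟩
    have e1 : volume (S ×ˢ S) ≤ ENNReal.ofReal 1 := by
      rw [Measure.volume_eq_prod, Measure.prod_prod]
      refine (mul_le_mul' hSl hSl).trans ?_
      rw [← ENNReal.ofReal_mul hl]
      exact ENNReal.ofReal_le_ofReal (by nlinarith)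
    refine (measure_mono hsub).trans (e1.trans (ENNReal.ofReal_le_ofReal ?_))
    have e2 : c₀ ^ 3 / 512 ≤ q := by
      rw [hqdef, le_div_iff₀ hab]
      linarith
    have e3 : (c₀ ^ 3 / 512) ^ ((4 : ℝ) / 3) ≤ q ^ ((4 : ℝ) / 3) :=
      Real.rpow_le_rpow (by positivity) e2 (by norm_num)
    have e4 : (c₀ ^ 3 / 512) ^ ((4 : ℝ) / 3) = c₀ ^ 4 / 4096 := by
      rw [show c₀ ^ 3 / 512 = (c₀ / 8) ^ 3 by ring, ← Real.rpow_natCast, ← Real.rpow_mul (by positivity)]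
      norm_num
      ring
    rw [e4] at e3
    have e5 : c₀⁻¹ ^ 4 * c₀ ^ 4 = 1 := by
      rw [← mul_pow, inv_mul_cancel₀ hc.ne', one_pow]
    have e6 : c₀⁻¹ ^ 4 * (c₀ ^ 4 / 4096) ≤ c₀⁻¹ ^ 4 * q ^ ((4 : ℝ) / 3) :=
      mul_le_mul_of_nonneg_left e3 (by positivity)
    have e7 : c₀⁻¹ ^ 4 * (c₀ ^ 4 / 4096) = 1 / 4096 := by
      rw [mul_div_assoc', e5]
    linarith

end Pool.Agent.Y322.KS
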