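import Pool.Agent.Y322.KS.Dim

/-!
# Kakeya sets that are unions of joint level sets of diagonal quadratic forms
-/

set_option autoImplicit false

open Set MeasureTheory
open scoped ENNReal NNReal

namespace Pool.Agent.Y322.KS

/-- Among `n + 2` intervals one avoids `n + 1` points. -/
theorem avoid (n : ℕ) (bad : Option (Fin n) → ℝ) : ∃ s₀ : ℝ, 0 ≤ s₀ ∧
    s₀ + 1 / (3 * (n + 2)) ≤ 1 ∧
    ∀ j, ∀ s ∈ Icc (0 : ℝ) (1 / (3 * (n + 2))), 1 / (3 * ((n : ℝ) + 2)) ≤ |s₀ + s - bad j| := by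
  have hn : (0 : ℝ) < (n : ℝ) + 2 := by positivity
  obtain ⟨i, hi⟩ : ∃ i : Fin (n + 2), ∀ j, bad j ∉ Ico ((i : ℝ) / (n + 2)) ((i + 1) / (n + 2)) := by
    by_contra hcon
    push Not at hcon
    choose f hf using hcon
    have hinj : Function.Injective f := by
      intro i j hij
      have h1 := hf i
      have h2 := hf j
      rw [hij] at h1
      have h3 : (i : ℝ) < j + 1 := by
        have := lt_of_le_of_lt h1.1 h2.2
        exact (div_lt_div_iff_of_pos_right hn).1 this
      have h4 : (j : ℝ) < i + 1 := by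
        have := lt_of_le_of_lt h2.1 h1.2
        exact (div_lt_div_iff_of_pos_right hn).1 this
      have h5 : (i : ℕ) < j + 1 := by exact_mod_cast h3
      have h6 : (j : ℕ) < i + 1 := by exact_mod_cast h4
      exact Fin.ext (by omega)
    have := Fintype.card_le_of_injective f hinj
    simp at this
  have hi2 : (i : ℝ) + 1 ≤ n + 2 := by
    have := i.2
    exact_mod_cast this
  refine ⟨(i : ℝ) / (n + 2) + 1 / (3 * (n + 2)), by positivity, ?_, ?_⟩
  · rw [show (i : ℝ) / (n + 2) + 1 / (3 * (n + 2)) + 1 / (3 * (n + 2)) =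
      (i + 2 / 3) / (n + 2) by field_simp; ring, div_le_one hn]
    linarith
  · intro j s hs
    have h1 := hi j
    rw [mem_Ico, not_and_or, not_le, not_lt] at h1
    have e1 : ((i : ℝ) + 1) / (n + 2) = (i : ℝ) / (n + 2) + 3 * (1 / (3 * (n + 2))) := by
      field_simp
    obtain ⟨hs1, hs2⟩ := hs
    set w : ℝ := 1 / (3 * ((n : ℝ) + 2))
    rcases h1 with h1 | h1
    · refine le_trans ?_ (le_abs_self _)
      linarith
    · refine le_trans ?_ (neg_le_abs _)
      rw [e1] at h1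
      linarith

/-- The vector that moves mass from the coordinate `b` to the coordinate `a`. -/
def ev {n : ℕ} (a b : Fin n) (l : Fin n) : ℝ := (if l = a then 1 else 0) - (if l = b then 1 else 0)

theorem ev_sum {n : ℕ} (a b : Fin n) : ∑ l, ev a b l = 0 := by
  unfold ev
  rw [Finset.sum_sub_distrib]
  simp

theorem ev_mu {n : ℕ} (a b : Fin n) (μ : Fin n → ℝ) : ∑ l, μ l * ev a b l = μ a - μ b := by
  unfold ev
  simp only [mul_sub, mul_ite, mul_one, mul_zero]
  rw [Finset.sum_sub_distrib]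
  simp

theorem ev_abs {n : ℕ} (a b : Fin n) (l : Fin n) : |ev a b l| ≤ 1 := by
  unfold ev
  split_ifs <;> norm_num

/-- The directions. -/
noncomputable def dirv {n : ℕ} (a b : Fin n) (τ : ℝ) (l : Fin n) : ℝ :=
  Real.sqrt ((1 + τ * ev a b l) / n)

theorem dirv_in {n : ℕ} (a b : Fin n) {τ : ℝ} (hτ : τ ∈ Icc (0 : ℝ) (1 / 2)) (l : Fin n) :
    1 / 2 ≤ 1 + τ * ev a b l ∧ 1 + τ * ev a b l ≤ 3 / 2 := by
  have h1 := abs_le.1 (ev_abs a b l)
  obtain ⟨h2, h3⟩ := hτ
  constructor <;> nlinarith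

theorem dirv_sq {n : ℕ} (a b : Fin n) {τ : ℝ} (hτ : τ ∈ Icc (0 : ℝ) (1 / 2)) (l : Fin n) :
    dirv a b τ l ^ 2 = (1 + τ * ev a b l) / n := by
  unfold dirv
  rw [Real.sq_sqrt]
  exact div_nonneg (by linarith [(dirv_in a b hτ l).1]) (Nat.cast_nonneg _)

theorem dirv_unit {n : ℕ} (a b : Fin n) {τ : ℝ} (hτ : τ ∈ Icc (0 : ℝ) (1 / 2)) :
    ∑ l, dirv a b τ l ^ 2 = 1 := by
  have hn : (n : ℝ) ≠ 0 := by
    have := a.pos
    positivity
  rw [Finset.sum_congr rfl fun l _ => dirv_sq a b hτ l, ← Finset.sum_div, Finset.sum_add_distrib,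
    ← Finset.mul_sum, ev_sum]
  simp [hn]

theorem dirv_low {n : ℕ} (a b : Fin n) {τ : ℝ} (hτ : τ ∈ Icc (0 : ℝ) (1 / 2)) (l : Fin n) :
    1 / (2 * n) ≤ dirv a b τ l := by
  have hn : (1 : ℝ) ≤ n := by
    have := a.pos
    exact_mod_cast this
  unfold dirv
  apply Real.le_sqrt_of_sq_le
  have h1 := (dirv_in a b hτ l).1
  have e1 : (1 / (2 * (n : ℝ))) ^ 2 ≤ 1 / (2 * n) := by
    have : (1 / (2 * (n : ℝ))) ≤ 1 := by
      rw [div_le_one (by positivity)]
      linarith
    have h0 : 0 ≤ 1 / (2 * (n : ℝ)) := by positivity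
    nlinarith
  refine e1.trans ?_
  rw [div_le_div_iff₀ (by positivity) (by positivity)]
  nlinarith

theorem dirv_abs {n : ℕ} (a b : Fin n) {τ : ℝ} (hτ : τ ∈ Icc (0 : ℝ) (1 / 2)) (l : Fin n) :
    |dirv a b τ l| ≤ 1 := by
  have h1 : dirv a b τ l ^ 2 ≤ 1 ^ 2 := by
    rw [one_pow, ← dirv_unit a b hτ]
    exact Finset.single_le_sum (f := fun l => dirv a b τ l ^ 2) (fun i _ => sq_nonneg _)
      (Finset.mem_univ l)
  exact abs_le_of_sq_le_sq h1 (by norm_num)

theorem dirv_mu {n : ℕ} (a b : Fin n) (μ : Fin n → ℝ) {τ : ℝ} (hτ : τ ∈ Icc (0 : ℝ) (1 / 2)) :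
    ∑ l, μ l * dirv a b τ l ^ 2 = (∑ l, μ l + τ * (μ a - μ b)) / n := by
  rw [Finset.sum_congr rfl fun l _ => by rw [dirv_sq a b hτ l], ← ev_mu a b μ, Finset.mul_sum,
    ← Finset.sum_add_distrib, Finset.sum_div]
  exact Finset.sum_congr rfl fun l _ => by ring

/-- The constraints on the squares of the coordinates. -/
noncomputable def con {n k : ℕ} (q : Fin k → Fin n → ℝ) :
    (Fin n → ℝ) →ₗ[ℝ] (Option (Fin k) → ℝ) where
  toFun z := fun i => ∑ l, (match i with | none => 1 | some i => q i l) * z l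
  map_add' x y := by
    funext i
    simp only [Pi.add_apply, mul_add, Finset.sum_add_distrib]
  map_smul' c x := by
    funext i
    simp only [Pi.smul_apply, smul_eq_mul, RingHom.id_apply, Finset.mul_sum]
    exact Finset.sum_congr rfl fun l _ => by ring

/-- **Kakeya sets which are unions of joint level sets, in coordinates.** -/
theorem main_coords {n k : ℕ} (q : Fin k → Fin n → ℝ) (i₀ : Fin k) (a b : Fin n)
    (hab : q i₀ a ≠ q i₀ b) (K : Set (EuclideanSpace ℝ (Fin n))) (hKb : Bornology.IsBounded K)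
    (hK : ∀ e : EuclideanSpace ℝ (Fin n), ‖e‖ = 1 → ∃ x, ∀ t ∈ Icc (0 : ℝ) 1, x + t • e ∈ K)
    (hsat : ∀ x ∈ K, ∀ y : EuclideanSpace ℝ (Fin n), ∑ l, y l ^ 2 = ∑ l, x l ^ 2 →
      (∀ i, ∑ l, q i l * y l ^ 2 = ∑ l, q i l * x l ^ 2) → y ∈ K) :
    ENNReal.ofReal ((n : ℝ) - k + 1 / 2) ≤ dimH K := by
  classical
  have hn : (1 : ℝ) ≤ n := by
    have := a.pos
    exact_mod_cast this
  set μ : Fin n → ℝ := q i₀ with hμ
  -- the kernel
  set W := LinearMap.ker (con q) with hW
  set m : ℕ := Module.finrank ℝ W with hm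
  have hmk : n ≤ m + (k + 1) := by
    have h1 := LinearMap.finrank_range_add_finrank_ker (con q)
    have h2 : Module.finrank ℝ (LinearMap.range (con q)) ≤ k + 1 := by
      refine (Submodule.finrank_le _).trans ?_
      simp
    have h3 : Module.finrank ℝ (Fin n → ℝ) = n := by simp
    rw [h3, ← hW] at h1
    omega
  have eb : (Fin m → ℝ) ≃ₗ[ℝ] W := (Module.finBasis ℝ W).equivFun.symm
  set V : (Fin m → ℝ) →ₗ[ℝ] (Fin n → ℝ) := W.subtype.comp eb.toLinearMap with hV
  have hVker : LinearMap.ker V = ⊥ := by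
    rw [LinearMap.ker_eq_bot]
    exact (Submodule.injective_subtype W).comp eb.injective
  have hVW : ∀ y, con q (V y) = 0 := fun y => (eb y).2
  have hV1 : ∀ y, ∑ l, V y l = 0 := by
    intro y
    have := congrFun (hVW y) none
    simpa [con] using this
  have hVq : ∀ i y, ∑ l, q i l * V y l = 0 := by
    intro i y
    have := congrFun (hVW y) (some i)
    simpa [con] using this
  obtain ⟨Kc, -, hKc⟩ := V.exists_antilipschitzWith hVker
  -- constants
  obtain ⟨R, hR⟩ := hKb.exists_norm_le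
  set M : ℝ := max R 1 with hM
  have hM1 : 1 ≤ M := le_max_right _ _
  set η : ℝ := 1 / (3 * (n + 2)) with hη
  have hη0 : 0 < η := by positivity
  have hη1 : η ≤ 1 := by
    rw [hη, div_le_one (by positivity)]
    linarith
  set c₁ : ℝ := η / (2 * n) with hc₁
  have hc₁0 : 0 < c₁ := by positivity
  obtain ⟨ρ, hρ0, hρ⟩ : ∃ ρ : ℝ, 0 < ρ ∧ ∀ y ∈ Metric.closedBall (0 : Fin m → ℝ) ρ, ∀ l,
      |V y l| ≤ c₁ ^ 2 / 2 ∧ |V y l| ≤ 1 := by
    have hcont : Continuous V := V.continuous_of_finiteDimensional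
    have h0 : (0 : ℝ) < min (c₁ ^ 2 / 2) 1 := lt_min (by positivity) one_pos
    obtain ⟨ρ, hρ, h⟩ := Metric.continuous_iff.1 hcont 0 _ h0
    refine ⟨ρ / 2, by positivity, fun y hy l => ?_⟩
    rw [Metric.mem_closedBall] at hy
    have h1 := h y (lt_of_le_of_lt hy (by linarith))
    rw [map_zero] at h1
    have h2 : |V y l| ≤ min (c₁ ^ 2 / 2) 1 := by
      have h3 : |V y l| ≤ ‖V y‖ := norm_le_pi_norm (V y) l
      rw [dist_zero_right] at h1
      exact h3.trans h1.le
    exact ⟨h2.trans (min_le_left _ _), h2.trans (min_le_right _ _)⟩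
  set N : ℝ := n + ∑ l, |μ l| with hN
  have hsμ : 0 ≤ ∑ l, |μ l| := Finset.sum_nonneg fun l _ => abs_nonneg _
  have hμab : μ a - μ b ≠ 0 := sub_ne_zero.2 hab
  set κ₀ : ℝ := |μ a - μ b| / n with hκ₀
  have hκ0 : 0 < κ₀ := by
    have := abs_pos.2 hμab
    positivity
  -- the segments
  have hseg : ∀ τ : ℝ, ∃ A : Fin n → ℝ, τ ∈ Icc (0 : ℝ) (1 / 2) →
      Good η c₁ M A (dirv a b τ) ∧
      ∀ s ∈ Icc (0 : ℝ) η, (WithLp.toLp 2 fun l => A l + s * dirv a b τ l) ∈ K := by
    intro τ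
    by_cases hτ : τ ∈ Icc (0 : ℝ) (1 / 2)
    · have hun : ‖(WithLp.toLp 2 (dirv a b τ) : EuclideanSpace ℝ (Fin n))‖ = 1 := by
        rw [EuclideanSpace.norm_eq]
        simp only [Real.norm_eq_abs, sq_abs]
        rw [dirv_unit a b hτ, Real.sqrt_one]
      obtain ⟨x, hx⟩ := hK _ hun
      have hpos : ∀ l, 0 < dirv a b τ l := fun l =>
        lt_of_lt_of_le (by positivity) (dirv_low a b hτ l)
      obtain ⟨s₀, hs0, hs1, hs2⟩ := avoid n (fun j => match j with
        | none => -∑ l, x l * dirv a b τ l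
        | some l => -(x l / dirv a b τ l))
      have hmemK : ∀ s ∈ Icc (0 : ℝ) η,
          (WithLp.toLp 2 fun l => (x l + s₀ * dirv a b τ l) + s * dirv a b τ l) ∈ K := by
        intro s hs
        have h1 := hx (s₀ + s) ⟨by linarith [hs.1], by linarith [hs.2]⟩
        convert h1 using 1
        ext l
        simp
        ring
      refine ⟨fun l => x l + s₀ * dirv a b τ l, fun _ => ⟨⟨?_, ?_, ?_, ?_, ?_⟩, hmemK⟩⟩
      · intro l s hs
        have h1 := hs2 (some l) s hs
        simp only [sub_neg_eq_add] at h1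
        have e : x l + s₀ * dirv a b τ l + s * dirv a b τ l =
            dirv a b τ l * (s₀ + s + x l / dirv a b τ l) := by
          have := (hpos l).ne'
          field_simp
          ring
        rw [e, abs_mul, abs_of_pos (hpos l), hc₁]
        calc η / (2 * n) = 1 / (2 * n) * η := by ring
          _ ≤ _ := mul_le_mul (dirv_low a b hτ l) h1 hη0.le (hpos l).le
      · intro l
        have h1 := hmemK 0 ⟨le_rfl, hη0.le⟩
        have h2 := hR _ h1
        have h3 := PiLp.norm_apply_le (WithLp.toLp 2 fun l => (x l + s₀ * dirv a b τ l) +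
          0 * dirv a b τ l : EuclideanSpace ℝ (Fin n)) l
        simp only [zero_mul, add_zero, Real.norm_eq_abs] at h2 h3
        exact (h3.trans h2).trans (le_max_left _ _)
      · exact fun l => dirv_abs a b hτ l
      · exact dirv_unit a b hτ
      · intro s hs
        have h1 := hs2 none s hs
        simp only [sub_neg_eq_add] at h1
        have e : ∑ l, (x l + s₀ * dirv a b τ l) * dirv a b τ l + s =
            s₀ + s + ∑ l, x l * dirv a b τ l := by
          have e1 : ∀ l, (x l + s₀ * dirv a b τ l) * dirv a b τ l =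
            x l * dirv a b τ l + s₀ * dirv a b τ l ^ 2 := fun l => by ring
          rw [Finset.sum_congr rfl fun l _ => e1 l, Finset.sum_add_distrib, ← Finset.mul_sum,
            dirv_unit a b hτ]
          ring
        rw [e]
        exact h1
    · exact ⟨0, fun h => absurd h hτ⟩
  choose A hA using hseg
  have hmain := dim_of_family (m := m) K μ V hη0 hη1 hM1 hc₁0 hρ0 hρ hV1 (hVq i₀) Kc hKc
    (N := N) (κ₀ := κ₀) (by rw [hN]; linarith) (by rw [hN]; linarith) (by rw [hN]; linarith) hκ0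
    A (dirv a b) (fun τ hτ => (hA τ hτ).1) (by
      intro τ hτ τ' hτ'
      rw [dirv_mu a b μ hτ, dirv_mu a b μ hτ', hκ₀]
      have e : (∑ l, μ l + τ * (μ a - μ b)) / n - (∑ l, μ l + τ' * (μ a - μ b)) / n =
        (μ a - μ b) / n * (τ - τ') := by ring
      rw [e, abs_mul, abs_div, abs_of_nonneg (by linarith : (0 : ℝ) ≤ n)]) (by
      intro τ hτ z hz
      have hg := (hA τ hτ).1
      have h1 := (hA τ hτ).2 z.1 hz.1
      have hnn : ∀ l, 0 ≤ (A τ l + z.1 * dirv a b τ l) ^ 2 + V z.2 l := by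
        intro l
        have e1 := hg.low l z.1 hz.1
        have e2 : c₁ ^ 2 ≤ (A τ l + z.1 * dirv a b τ l) ^ 2 := by
          rw [← sq_abs (A τ l + z.1 * dirv a b τ l)]
          exact pow_le_pow_left₀ hc₁0.le e1 2
        have e3 := (abs_le.1 (hρ z.2 hz.2 l).1).1
        nlinarith
      have hsqp : ∀ l, (pt (A τ) (dirv a b τ) V z) l ^ 2 =
          (A τ l + z.1 * dirv a b τ l) ^ 2 + V z.2 l := fun l => pt_sq _ _ _ _ _ (hnn l)
      refine hsat _ h1 _ ?_ ?_
      · simp only [hsqp, Finset.sum_add_distrib, hV1, add_zero]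
      · intro i
        simp only [hsqp, mul_add, Finset.sum_add_distrib, hVq, add_zero])
  refine le_trans (ENNReal.ofReal_le_ofReal ?_) hmain
  have : (n : ℝ) ≤ m + (k + 1) := by exact_mod_cast hmk
  linarith

end Pool.Agent.Y322.KS
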