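import Pool.Agent.Y322.KS.Level

/-!
# Two parametrised parabolas: how long are they close to each other?
-/

set_option autoImplicit false

open Set MeasureTheory

namespace Pool.Agent.Y322.KS

/-- The function `Δ v² + 2 G v + E - 2 g sqrt (v² + k)` on an interval of length `η` at distance
`≥ η` from zero, where `v² + k ≥ η² / 2`. -/
theorem root_pos (η u Δ G E g k B ε c₀ : ℝ) (hη : 0 < η) (hη1 : η ≤ 1) (hB : 0 < B)
    (hc₀ : 0 < c₀) (hc₁ : c₀ ≤ 1)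
    (hu : ∀ s ∈ Icc (0 : ℝ) η, η ≤ |u + s|) (hQ : ∀ s ∈ Icc (0 : ℝ) η, (u + s) ^ 2 + k ≤ B)
    (hΔ : 0 < Δ * u) (hε : 0 < ε) :
    volume {p : ℝ × ℝ | (p.1 ∈ {v | v ∈ Icc u (u + η) ∧ η ^ 2 / 2 ≤ v ^ 2 + k} ∧
      |Δ * p.1 ^ 2 + 2 * G * p.1 + E - 2 * g * Real.sqrt (p.1 ^ 2 + k)| ≤ ε) ∧
      (p.2 ∈ {v | v ∈ Icc u (u + η) ∧ η ^ 2 / 2 ≤ v ^ 2 + k} ∧
      |Δ * p.2 ^ 2 + 2 * G * p.2 + E - 2 * g * Real.sqrt (p.2 ^ 2 + k)| ≤ ε) ∧
      c₀ ≤ |p.1 - p.2|} ≤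
      ENNReal.ofReal (200000 * (c₀⁻¹ ^ 4 *
        (ε * (B * Real.sqrt B) / (4 * |Δ| * η ^ 2)) ^ ((4 : ℝ) / 3))) := by
  set S : Set ℝ := {v | v ∈ Icc u (u + η) ∧ η ^ 2 / 2 ≤ v ^ 2 + k} with hSdef
  have hu0 : η ≤ |u| := by simpa using hu 0 ⟨le_rfl, hη.le⟩
  have hu1 : η ≤ |u + η| := hu η ⟨hη.le, le_rfl⟩
  have hsg : (0 < u ∧ ∀ v ∈ Icc u (u + η), η ≤ v) ∨ (u < 0 ∧ ∀ v ∈ Icc u (u + η), v ≤ -η) := by
    rcases le_abs.1 hu0 with h | h
    · exact Or.inl ⟨by linarith, fun v hv => h.trans hv.1⟩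
    · refine Or.inr ⟨by linarith, fun v hv => ?_⟩
      rcases le_abs.1 hu1 with h' | h'
      · linarith
      · linarith [hv.2]
  have hS : S.OrdConnected := by
    refine ⟨fun x hx y hy z hz => ⟨⟨hx.1.1.trans hz.1, hz.2.trans hy.1.2⟩, ?_⟩⟩
    rcases hsg with ⟨-, h⟩ | ⟨-, h⟩
    · have h1 := h x hx.1
      have h2 : x ^ 2 ≤ z ^ 2 := by nlinarith [hz.1]
      linarith [hx.2]
    · have h1 := h y hy.1
      have h2 : y ^ 2 ≤ z ^ 2 := by nlinarith [hz.2]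
      linarith [hy.2]
  have hQpos : ∀ v ∈ S, 0 < v ^ 2 + k := fun v hv => by
    have := hv.2
    have h2 : 0 < η ^ 2 / 2 := by positivity
    linarith
  have hQB : ∀ v ∈ S, v ^ 2 + k ≤ B := fun v hv => by
    have := hQ (v - u) ⟨by linarith [hv.1.1], by linarith [hv.1.2]⟩
    simpa using this
  have hsq : ∀ v ∈ S, 0 < Real.sqrt (v ^ 2 + k) := fun v hv => Real.sqrt_pos.2 (hQpos v hv)
  have hsq2 : ∀ v ∈ S, Real.sqrt (v ^ 2 + k) * Real.sqrt (v ^ 2 + k) = v ^ 2 + k := fun v hv =>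
    Real.mul_self_sqrt (hQpos v hv).le
  have hdQ : ∀ v : ℝ, HasDerivAt (fun v : ℝ => v ^ 2 + k) (2 * v) v := fun v => by
    have := (hasDerivAt_pow 2 v).add_const k
    simpa using this
  have hdsq : ∀ v ∈ S, HasDerivAt (fun v : ℝ => Real.sqrt (v ^ 2 + k))
      (v / Real.sqrt (v ^ 2 + k)) v := fun v hv => by
    have h1 := (hdQ v).sqrt (hQpos v hv).ne'
    convert h1 using 1
    have := (hsq v hv).ne'
    field_simp
  -- the function
  have hf : ∀ v ∈ S, HasDerivAt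
      (fun v : ℝ => Δ * v ^ 2 + 2 * G * v + E - 2 * g * Real.sqrt (v ^ 2 + k))
      (2 * Δ * v + 2 * G - 2 * g * (v / Real.sqrt (v ^ 2 + k))) v := fun v hv => by
    have h1 := (((hasDerivAt_pow 2 v).const_mul Δ).add ((hasDerivAt_id v).const_mul (2 * G))).add_const E
    have h2 := h1.sub ((hdsq v hv).const_mul (2 * g))
    refine HasDerivAt.congr_deriv h2 ?_
    norm_num
    ring
  have hf' : ∀ v ∈ S, HasDerivAt
      (fun v : ℝ => 2 * Δ * v + 2 * G - 2 * g * (v / Real.sqrt (v ^ 2 + k)))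
      (2 * Δ - 2 * g * (k / ((v ^ 2 + k) * Real.sqrt (v ^ 2 + k)))) v := fun v hv => by
    have h1 := ((hasDerivAt_id v).const_mul (2 * Δ)).add_const (2 * G)
    have h3 := (hasDerivAt_id v).div (hdsq v hv) (hsq v hv).ne'
    have h2 := h1.sub (h3.const_mul (2 * g))
    refine HasDerivAt.congr_deriv h2 ?_
    have e1 := (hsq v hv).ne'
    have e2 := (hQpos v hv).ne'
    have e3 := hsq2 v hv
    have e4 : (1 * Real.sqrt (v ^ 2 + k) - id v * (v / Real.sqrt (v ^ 2 + k))) /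
        Real.sqrt (v ^ 2 + k) ^ 2 = k / ((v ^ 2 + k) * Real.sqrt (v ^ 2 + k)) := by
      have e5 : Real.sqrt (v ^ 2 + k) ^ 2 = v ^ 2 + k := by rw [sq, e3]
      rw [e5, div_eq_div_iff e2 (mul_ne_zero e2 e1)]
      have e6 : (v / Real.sqrt (v ^ 2 + k)) * Real.sqrt (v ^ 2 + k) = v := by field_simp
      simp only [id]
      calc (1 * Real.sqrt (v ^ 2 + k) - v * (v / Real.sqrt (v ^ 2 + k))) *
            ((v ^ 2 + k) * Real.sqrt (v ^ 2 + k))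
          = (v ^ 2 + k) * (Real.sqrt (v ^ 2 + k) * Real.sqrt (v ^ 2 + k) -
            v * ((v / Real.sqrt (v ^ 2 + k)) * Real.sqrt (v ^ 2 + k))) := by ring
        _ = k * (v ^ 2 + k) := by rw [e6, e3]; ring
    rw [e4]
    ring
  -- the function `κ`
  set sg : ℝ := |Δ| / Δ with hsgdef
  have hΔ0 : Δ ≠ 0 := by
    rintro rfl
    simp at hΔ
  have hκ : ∀ v ∈ S, HasDerivAt (fun v : ℝ => Δ * ((v ^ 2 + k) * Real.sqrt (v ^ 2 + k)) - g * k)
      (3 * Δ * v * Real.sqrt (v ^ 2 + k)) v := fun v hv => by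
    have h1 := (((hdQ v).mul (hdsq v hv)).const_mul Δ).sub_const (g * k)
    refine HasDerivAt.congr_deriv h1 ?_
    have e1 := (hsq v hv).ne'
    have e3 := hsq2 v hv
    have e6 : (v ^ 2 + k) * (v / Real.sqrt (v ^ 2 + k)) = v * Real.sqrt (v ^ 2 + k) := by
      rw [mul_div_assoc', div_eq_iff e1, mul_assoc, e3]
      ring
    rw [e6]
    ring
  have hsqlow : ∀ v ∈ S, η / 3 * 2 ≤ Real.sqrt (v ^ 2 + k) := fun v hv => by
    apply Real.le_sqrt_of_sq_le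
    have := hv.2
    nlinarith [hη]
  have hBs : ∀ v ∈ S, (v ^ 2 + k) * Real.sqrt (v ^ 2 + k) ≤ B * Real.sqrt B := fun v hv =>
    mul_le_mul (hQB v hv) (Real.sqrt_le_sqrt (hQB v hv)) (hsq v hv).le hB.le
  have hBpos : 0 < B * Real.sqrt B := mul_pos hB (Real.sqrt_pos.2 hB)
  have hQQ : ∀ v ∈ S, 0 < (v ^ 2 + k) * Real.sqrt (v ^ 2 + k) := fun v hv =>
    mul_pos (hQpos v hv) (hsq v hv)
  have hf2 : ∀ v ∈ S, 2 * Δ - 2 * g * (k / ((v ^ 2 + k) * Real.sqrt (v ^ 2 + k))) =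
      2 / ((v ^ 2 + k) * Real.sqrt (v ^ 2 + k)) *
        (Δ * ((v ^ 2 + k) * Real.sqrt (v ^ 2 + k)) - g * k) := fun v hv => by
    have := (hQQ v hv).ne'
    set q : ℝ := (v ^ 2 + k) * Real.sqrt (v ^ 2 + k)
    field_simp
  have hle : ∀ v ∈ S, 2 / (B * Real.sqrt B) ≤ 2 / ((v ^ 2 + k) * Real.sqrt (v ^ 2 + k)) :=
    fun v hv => div_le_div_of_nonneg_left (by norm_num) (hQQ v hv) (hBs v hv)
  have hvl : ∀ v ∈ S, |Δ| * η ≤ Δ * v := fun v hv => by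
    rcases hsg with ⟨h1, h⟩ | ⟨h1, h⟩
    · have hp : 0 < Δ := by
        by_contra hc
        push Not at hc
        nlinarith
      rw [abs_of_pos hp]
      exact mul_le_mul_of_nonneg_left (h v hv.1) hp.le
    · have hp : Δ < 0 := by
        by_contra hc
        push Not at hc
        nlinarith
      rw [abs_of_neg hp]
      have := h v hv.1
      nlinarith
  have hη3 : 0 < 2 * |Δ| * η ^ 2 := by positivity
  have h1 : ∀ v ∈ S, 2 * |Δ| * η ^ 2 ≤ 3 * Δ * v * Real.sqrt (v ^ 2 + k) := fun v hv => by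
    have e1 := hvl v hv
    have e2 := hsqlow v hv
    have e3 : (|Δ| * η) * (η / 3 * 2) ≤ (Δ * v) * Real.sqrt (v ^ 2 + k) :=
      mul_le_mul e1 e2 (by positivity) (le_trans (by positivity) e1)
    nlinarith
  have hSl : volume S ≤ ENNReal.ofReal η := by
    refine (measure_mono (fun v hv => hv.1)).trans (le_of_eq ?_)
    rw [Real.volume_Icc]
    congr 1
    ring
  have key := far_pairs (S := S) (a := 2 * |Δ| * η ^ 2) (b := 2 / (B * Real.sqrt B)) (ε := ε) hS hη3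
    (by positivity) hc₀ hc₁ hε hη.le hη1 hSl hf hf' hκ h1 (fun v hv h0 => by
      rw [hf2 v hv]
      exact mul_le_mul_of_nonneg_right (hle v hv) h0) (fun v hv h0 => by
      rw [hf2 v hv]
      exact mul_le_mul_of_nonpos_right (hle v hv) h0)
  refine key.trans (le_of_eq ?_)
  congr 4
  field_simp
  ring

theorem root_all (η u Δ G E g k B ε c₀ : ℝ) (hη : 0 < η) (hη1 : η ≤ 1) (hB : 0 < B)
    (hc₀ : 0 < c₀) (hc₁ : c₀ ≤ 1)
    (hu : ∀ s ∈ Icc (0 : ℝ) η, η ≤ |u + s|) (hQ : ∀ s ∈ Icc (0 : ℝ) η, (u + s) ^ 2 + k ≤ B)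
    (hΔ : Δ ≠ 0) (hε : 0 < ε) :
    volume {p : ℝ × ℝ | (p.1 ∈ {v | v ∈ Icc u (u + η) ∧ η ^ 2 / 2 ≤ v ^ 2 + k} ∧
      |Δ * p.1 ^ 2 + 2 * G * p.1 + E - 2 * g * Real.sqrt (p.1 ^ 2 + k)| ≤ ε) ∧
      (p.2 ∈ {v | v ∈ Icc u (u + η) ∧ η ^ 2 / 2 ≤ v ^ 2 + k} ∧
      |Δ * p.2 ^ 2 + 2 * G * p.2 + E - 2 * g * Real.sqrt (p.2 ^ 2 + k)| ≤ ε) ∧
      c₀ ≤ |p.1 - p.2|} ≤
      ENNReal.ofReal (200000 * (c₀⁻¹ ^ 4 *
        (ε * (B * Real.sqrt B) / (4 * |Δ| * η ^ 2)) ^ ((4 : ℝ) / 3))) := by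
  have hu0 : u ≠ 0 := by
    have : η ≤ |u| := by simpa using hu 0 ⟨le_rfl, hη.le⟩
    rintro rfl
    simp at this
    linarith
  rcases lt_or_gt_of_ne (mul_ne_zero hΔ hu0) with h | h
  · have := root_pos η u (-Δ) (-G) (-E) (-g) k B ε c₀ hη hη1 hB hc₀ hc₁ hu hQ
      (by linarith [neg_mul Δ u]) hε
    rw [abs_neg] at this
    refine le_trans (measure_mono ?_) this
    rintro p ⟨⟨hv, h2⟩, ⟨hv', h2'⟩, hd⟩
    refine ⟨⟨hv, ?_⟩, ⟨hv', ?_⟩, hd⟩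
    · rw [← abs_neg]
      convert h2 using 2
      ring
    · rw [← abs_neg]
      convert h2' using 2
      ring
  · exact root_pos η u Δ G E g k B ε c₀ hη hη1 hB hc₀ hc₁ hu hQ h hε

/-- The set of pairs of parameters at which two parabolas are close. -/
def closePairs (η u e c g h u' e' c' g' h' ε : ℝ) : Set (ℝ × ℝ) :=
  {p | p.1 ∈ Icc 0 η ∧ p.2 ∈ Icc 0 η ∧
    |(p.1 ^ 2 + 2 * u * p.1 + e) - (p.2 ^ 2 + 2 * u' * p.2 + e')| ≤ ε ∧
    |(c * p.1 ^ 2 + 2 * g * p.1 + h) - (c' * p.2 ^ 2 + 2 * g' * p.2 + h')| ≤ ε}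

theorem slice_small (η u' x ε : ℝ) (hη : 0 < η) (hu' : ∀ s ∈ Icc (0 : ℝ) η, η ≤ |u' + s|) :
    volume {t : ℝ | t ∈ Icc 0 η ∧ |x - (t ^ 2 + 2 * u' * t)| ≤ ε} ≤
      ENNReal.ofReal (2 * (ε / η)) := by
  apply vol_diam
  rintro t ⟨ht, h1⟩ t' ⟨ht', h2⟩
  have h0 : η ≤ |u'| := by simpa using hu' 0 ⟨le_rfl, hη.le⟩
  have h0' : η ≤ |u' + η| := hu' η ⟨hη.le, le_rfl⟩
  have key : 2 * η ≤ |t + t' + 2 * u'| := by
    rcases le_abs.1 h0 with h | h
    · refine le_trans ?_ (le_abs_self _)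
      linarith [ht.1, ht'.1]
    · refine le_trans ?_ (neg_le_abs _)
      rcases le_abs.1 h0' with h' | h'
      · linarith
      · linarith [ht.2, ht'.2]
  have h3 : |(t - t') * (t + t' + 2 * u')| ≤ 2 * ε := by
    have e : (t - t') * (t + t' + 2 * u') =
      (x - (t' ^ 2 + 2 * u' * t')) - (x - (t ^ 2 + 2 * u' * t)) := by ring
    rw [e]
    have := abs_le.1 h1
    have := abs_le.1 h2
    rw [abs_le]
    constructor <;> linarith
  rw [abs_mul] at h3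
  rw [le_div_iff₀ hη]
  have h4 : |t - t'| * (2 * η) ≤ 2 * ε :=
    (mul_le_mul_of_nonneg_left key (abs_nonneg _)).trans h3
  linarith

theorem close_meas (η u e c g h u' e' c' g' h' ε : ℝ) :
    MeasurableSet (closePairs η u e c g h u' e' c' g' h' ε) := by
  have : closePairs η u e c g h u' e' c' g' h' ε =
    (Prod.fst ⁻¹' Icc 0 η) ∩ (Prod.snd ⁻¹' Icc 0 η) ∩
    ({p : ℝ × ℝ | |(p.1 ^ 2 + 2 * u * p.1 + e) - (p.2 ^ 2 + 2 * u' * p.2 + e')| ≤ ε} ∩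
    {p : ℝ × ℝ | |(c * p.1 ^ 2 + 2 * g * p.1 + h) - (c' * p.2 ^ 2 + 2 * g' * p.2 + h')| ≤ ε}) := by
    ext p
    simp only [closePairs, mem_ofPred_eq, mem_inter_iff, mem_preimage]
    tauto
  rw [this]
  refine ((measurable_fst measurableSet_Icc).inter (measurable_snd measurableSet_Icc)).inter
    (MeasurableSet.inter ?_ ?_)
  · exact (isClosed_le (by fun_prop) continuous_const).measurableSet
  · exact (isClosed_le (by fun_prop) continuous_const).measurableSet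

/-- The pair estimate: the parameters at which the first parabola is close to the second one lie
in a set with few pairs of points which are far apart. -/
theorem pair_far (η M : ℝ) (hη : 0 < η) (hη1 : η ≤ 1) (hM : 0 < M) : ∃ C : ℝ, 0 < C ∧
    ∀ u e c g h u' e' c' g' h' : ℝ, |u| ≤ M → |e| ≤ M → |c| ≤ M → |g| ≤ M → |h| ≤ M →
      |u'| ≤ M → |e'| ≤ M → |c'| ≤ M → |g'| ≤ M → |h'| ≤ M →
      (∀ s ∈ Icc (0 : ℝ) η, η ≤ |u + s|) → (∀ s ∈ Icc (0 : ℝ) η, η ≤ |u' + s|) → c ≠ c' →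
      ∀ ε : ℝ, 0 < ε → ε ≤ η ^ 2 / 2 → ∀ c₀ : ℝ, 0 < c₀ → c₀ ≤ 1 → ∃ T : Set ℝ, MeasurableSet T ∧
        (∀ s t : ℝ, (s, t) ∈ closePairs η u e c g h u' e' c' g' h' ε → s ∈ T) ∧
        volume {p : ℝ × ℝ | p.1 ∈ T ∧ p.2 ∈ T ∧ c₀ ≤ |p.1 - p.2|} ≤
          ENNReal.ofReal (C * (c₀⁻¹ ^ 4 * (ε / |c - c'|) ^ ((4 : ℝ) / 3))) := by
  set B : ℝ := (M + η) ^ 2 + (2 * M + 2 * M ^ 2) with hBdef
  have hB : 0 < B := by positivity
  set C4 : ℝ := 1 + M + 2 * (M + M ^ 2) / η with hC4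
  have hC4p : 0 < C4 := by positivity
  set D : ℝ := C4 * (B * Real.sqrt B) / (4 * η ^ 2) with hD
  have hsB : 0 < Real.sqrt B := Real.sqrt_pos.2 hB
  have hDp : 0 < D := by positivity
  refine ⟨200000 * D ^ ((4 : ℝ) / 3), by positivity, ?_⟩
  intro u e c g h u' e' c' g' h' bu be bc bg bh bu' be' bc' bg' bh' hu hu' hcc ε hε hε2 c₀ hc₀ hc₁
  have hΔ : c - c' ≠ 0 := sub_ne_zero.2 hcc
  set k : ℝ := e - u ^ 2 - e' + u' ^ 2 with hk
  set G : ℝ := g - c * u with hG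
  set H : ℝ := c * u ^ 2 - 2 * g * u + h with hH
  set G' : ℝ := g' - c' * u' with hG'
  set H' : ℝ := c' * u' ^ 2 - 2 * g' * u' + h' with hH'
  set E : ℝ := H - H' - c' * k with hE
  have hGb : |G'| ≤ M + M ^ 2 := by
    have e1 : |c' * u'| ≤ M * M := by
      rw [abs_mul]
      exact mul_le_mul bc' bu' (abs_nonneg _) hM.le
    calc |G'| ≤ |g'| + |c' * u'| := abs_sub _ _
      _ ≤ M + M ^ 2 := by rw [sq]; exact add_le_add bg' e1
  have hkb : k ≤ 2 * M + 2 * M ^ 2 := by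
    have e1 := abs_le.1 be
    have e2 := abs_le.1 be'
    have e3 : u' ^ 2 ≤ M ^ 2 := by
      rw [← sq_abs u']
      exact pow_le_pow_left₀ (abs_nonneg _) bu' 2
    have e4 : 0 ≤ u ^ 2 := sq_nonneg u
    have e5 : 0 ≤ M ^ 2 := sq_nonneg M
    rw [hk]
    linarith
  have hQ : ∀ s ∈ Icc (0 : ℝ) η, (u + s) ^ 2 + k ≤ B := by
    intro s hs
    have e1 : |u + s| ≤ M + η := (abs_add_le _ _).trans
      (add_le_add bu (by rw [abs_of_nonneg hs.1]; exact hs.2))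
    have e2 : (u + s) ^ 2 ≤ (M + η) ^ 2 := by
      rw [← sq_abs (u + s)]
      exact pow_le_pow_left₀ (abs_nonneg _) e1 2
    rw [hBdef]
    linarith
  -- sign of `u'`
  have hu'0 : η ≤ |u'| := by simpa using hu' 0 ⟨le_rfl, hη.le⟩
  have hu'1 : η ≤ |u' + η| := hu' η ⟨hη.le, le_rfl⟩
  obtain ⟨σ, hσ, hσw⟩ : ∃ σ : ℝ, |σ| = 1 ∧ ∀ t ∈ Icc (0 : ℝ) η, t + u' = σ * |t + u'| := by
    rcases le_abs.1 hu'0 with h1 | h1
    · refine ⟨1, abs_one, fun t ht => ?_⟩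
      rw [one_mul, abs_of_nonneg]
      linarith [ht.1]
    · refine ⟨-1, by simp, fun t ht => ?_⟩
      have : t + u' ≤ 0 := by
        rcases le_abs.1 hu'1 with h' | h'
        · linarith
        · linarith [ht.2]
      rw [abs_of_nonpos this]
      ring
  set Sv : Set ℝ := {v | v ∈ {v | v ∈ Icc u (u + η) ∧ η ^ 2 / 2 ≤ v ^ 2 + k} ∧
      |(c - c') * v ^ 2 + 2 * G * v + E - 2 * (G' * σ) * Real.sqrt (v ^ 2 + k)| ≤ C4 * ε} with hSv
  have hroot := root_all η u (c - c') G E (G' * σ) k B (C4 * ε) c₀ hη hη1 hB hc₀ hc₁ hu hQ hΔ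
    (by positivity)
  have hSvm : MeasurableSet Sv := by
    apply IsClosed.measurableSet
    have e1 : Sv = (Icc u (u + η) ∩ {v | η ^ 2 / 2 ≤ v ^ 2 + k}) ∩
      {v | |(c - c') * v ^ 2 + 2 * G * v + E - 2 * (G' * σ) * Real.sqrt (v ^ 2 + k)| ≤ C4 * ε} := by
      ext v
      simp only [hSv, mem_ofPred_eq, mem_inter_iff]
    rw [e1]
    refine (isClosed_Icc.inter ?_).inter ?_
    · exact isClosed_le continuous_const (by fun_prop)
    · exact isClosed_le (by fun_prop) continuous_const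
  have hmain : ∀ s t : ℝ, (s, t) ∈ closePairs η u e c g h u' e' c' g' h' ε → s + u ∈ Sv := by
    rintro s t ⟨hs, ht, h1, h2⟩
    simp only at hs ht h1 h2
    have hw : η ≤ |t + u'| := by
      rw [add_comm]
      exact hu' t ht
    have hww : (t + u') ^ 2 = |t + u'| ^ 2 := (sq_abs _).symm
    have h1' : |((s + u) ^ 2 + k) - (t + u') ^ 2| ≤ ε := by
      convert h1 using 2
      rw [hk]
      ring
    have hq : η ^ 2 / 2 ≤ (s + u) ^ 2 + k := by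
      have e1 := (abs_le.1 h1').1
      have e2 : η ^ 2 ≤ (t + u') ^ 2 := by
        rw [hww]
        exact pow_le_pow_left₀ hη.le hw 2
      linarith
    have hq0 : 0 < (s + u) ^ 2 + k := lt_of_lt_of_le (by positivity) hq
    refine ⟨⟨⟨by linarith [hs.1], by linarith [hs.2]⟩, hq⟩, ?_⟩
    have hr0 : 0 < Real.sqrt ((s + u) ^ 2 + k) := Real.sqrt_pos.2 hq0
    have hr2 : Real.sqrt ((s + u) ^ 2 + k) ^ 2 = (s + u) ^ 2 + k := Real.sq_sqrt hq0.le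
    have hdiff : |(|t + u'| - Real.sqrt ((s + u) ^ 2 + k))| ≤ ε / η := by
      rw [le_div_iff₀ hη]
      have e1 : (|t + u'| - Real.sqrt ((s + u) ^ 2 + k)) *
        (|t + u'| + Real.sqrt ((s + u) ^ 2 + k)) = (t + u') ^ 2 - ((s + u) ^ 2 + k) := by
        rw [hww]
        calc _ = |t + u'| ^ 2 - Real.sqrt ((s + u) ^ 2 + k) ^ 2 := by ring
          _ = _ := by rw [hr2]
      have e2 : |(|t + u'| - Real.sqrt ((s + u) ^ 2 + k))| *
        (|t + u'| + Real.sqrt ((s + u) ^ 2 + k)) ≤ ε := by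
        have e3 : |(|t + u'| - Real.sqrt ((s + u) ^ 2 + k)) *
            (|t + u'| + Real.sqrt ((s + u) ^ 2 + k))| ≤ ε := by
          rw [e1, abs_sub_comm]
          exact h1'
        rwa [abs_mul, abs_of_nonneg (add_nonneg (abs_nonneg (t + u')) hr0.le)] at e3
      refine le_trans (mul_le_mul_of_nonneg_left ?_ (abs_nonneg _)) e2
      linarith
    have hdiff2 : |(t + u') - σ * Real.sqrt ((s + u) ^ 2 + k)| ≤ ε / η := by
      have e1 : (t + u') - σ * Real.sqrt ((s + u) ^ 2 + k) =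
        σ * (|t + u'| - Real.sqrt ((s + u) ^ 2 + k)) := by
        rw [mul_sub, ← hσw t ht]
      rw [e1, abs_mul, hσ, one_mul]
      exact hdiff
    have hid : (c - c') * (s + u) ^ 2 + 2 * G * (s + u) + E -
        2 * (G' * σ) * Real.sqrt ((s + u) ^ 2 + k) =
        ((c * s ^ 2 + 2 * g * s + h) - (c' * t ^ 2 + 2 * g' * t + h')) -
        c' * (((s + u) ^ 2 + k) - (t + u') ^ 2) +
        2 * G' * ((t + u') - σ * Real.sqrt ((s + u) ^ 2 + k)) := by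
      rw [hE, hH, hH', hG, hG']
      ring
    rw [hid]
    have b1 : |c' * (((s + u) ^ 2 + k) - (t + u') ^ 2)| ≤ M * ε := by
      rw [abs_mul]
      exact mul_le_mul bc' h1' (abs_nonneg _) hM.le
    have b2 : |2 * G' * ((t + u') - σ * Real.sqrt ((s + u) ^ 2 + k))| ≤
        2 * (M + M ^ 2) * (ε / η) := by
      rw [abs_mul]
      refine mul_le_mul ?_ hdiff2 (abs_nonneg _) (by positivity)
      rw [abs_mul, abs_two]
      linarith
    calc _ ≤ |((c * s ^ 2 + 2 * g * s + h) - (c' * t ^ 2 + 2 * g' * t + h')) -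
          c' * (((s + u) ^ 2 + k) - (t + u') ^ 2)| +
          |2 * G' * ((t + u') - σ * Real.sqrt ((s + u) ^ 2 + k))| := abs_add_le _ _
      _ ≤ (|(c * s ^ 2 + 2 * g * s + h) - (c' * t ^ 2 + 2 * g' * t + h')| +
          |c' * (((s + u) ^ 2 + k) - (t + u') ^ 2)|) +
          |2 * G' * ((t + u') - σ * Real.sqrt ((s + u) ^ 2 + k))| :=
          add_le_add (abs_sub _ _) le_rfl
      _ ≤ (ε + M * ε) + 2 * (M + M ^ 2) * (ε / η) := add_le_add (add_le_add h2 b1) b2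
      _ = C4 * ε := by
          rw [hC4]
          field_simp
  refine ⟨(fun s => s + u) ⁻¹' Sv, (measurable_add_const u) hSvm, hmain, ?_⟩
  have htrans : volume {p : ℝ × ℝ | p.1 ∈ (fun s => s + u) ⁻¹' Sv ∧
      p.2 ∈ (fun s => s + u) ⁻¹' Sv ∧ c₀ ≤ |p.1 - p.2|} =
      volume {p : ℝ × ℝ | p.1 ∈ Sv ∧ p.2 ∈ Sv ∧ c₀ ≤ |p.1 - p.2|} := by
    have e1 : {p : ℝ × ℝ | p.1 ∈ (fun s => s + u) ⁻¹' Sv ∧
        p.2 ∈ (fun s => s + u) ⁻¹' Sv ∧ c₀ ≤ |p.1 - p.2|} =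
        (fun p : ℝ × ℝ => p + (u, u)) ⁻¹' {p : ℝ × ℝ | p.1 ∈ Sv ∧ p.2 ∈ Sv ∧ c₀ ≤ |p.1 - p.2|} := by
      ext p
      simp only [mem_preimage, mem_ofPred_eq, Prod.fst_add, Prod.snd_add, add_sub_add_right_eq_sub]
    rw [e1]
    exact measure_preimage_add_right _ _ _
  rw [htrans]
  refine hroot.trans (ENNReal.ofReal_le_ofReal ?_)
  have hcp : 0 < |c - c'| := abs_pos.2 hΔ
  have e1 : C4 * ε * (B * Real.sqrt B) / (4 * |c - c'| * η ^ 2) = D * (ε / |c - c'|) := by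
    rw [hD]
    field_simp
  rw [e1, Real.mul_rpow hDp.le (by positivity)]
  apply le_of_eq
  ring

end Pool.Agent.Y322.KS
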